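import Pool.Agent.Helper19.GS.Cd

/-!
# GS counts C1: sorted triangles (helper19 proves this file)
-/

open MeasureTheory Real Set Filter Topology

set_option autoImplicit false

namespace Pool.Agent.Helper19.GS

open Pool.Agent.Helper22.AE
open Pool.Agent.Helper92.GC
open Pool.Agent.Helper76.GS

private theorem quart19b {p q : ℝ} (hq : 0 ≤ q) : p * q * (q - p) ≤ q ^ 3 / 4 := by
  nlinarith [mul_nonneg hq (sq_nonneg (q - 2 * p))]

private theorem areaub19b {ρ R s p q : ℝ} (hρ : 1 ≤ ρ) (h1 : ρ / 2 ≤ R) (hq : 0 < q) (hqs : q ≤ 16 * ρ * s)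
    {n : ℤ} (hn : 999 / 1000 * (n : ℝ) ≤ p * q * (q - p) / (4 * R)) : (n : ℝ) ≤ 520 * ρ ^ 2 * s ^ 3 := by
  have hR : 0 < R := by linarith
  have hρ0 : 0 < ρ := by linarith
  have e1 : p * q * (q - p) / (4 * R) ≤ q ^ 3 / 4 / (2 * ρ) := by
    have hq3 : 0 ≤ q ^ 3 / 4 := by positivity
    calc p * q * (q - p) / (4 * R) ≤ (q ^ 3 / 4) / (4 * R) :=
          div_le_div_of_nonneg_right (quart19b hq.le) (by positivity)
      _ ≤ q ^ 3 / 4 / (2 * ρ) := div_le_div_of_nonneg_left hq3 (by positivity) (by linarith)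
  have e2 : q ^ 3 ≤ (16 * ρ * s) ^ 3 := pow_le_pow_left₀ hq.le hqs 3
  have e3 : q ^ 3 / 4 / (2 * ρ) ≤ 512 * ρ ^ 2 * s ^ 3 := by
    rw [div_le_iff₀ (by positivity)]
    nlinarith
  have hs3 : 0 ≤ ρ ^ 2 * s ^ 3 := by
    have : 0 < s := by
      by_contra hc
      have : 16 * ρ * s ≤ 0 := mul_nonpos_of_nonneg_of_nonpos (by positivity) (not_lt.1 hc)
      linarith
    positivity
  nlinarith

private theorem arealb19b {ρ R p q : ℝ} (hρ : 1 ≤ ρ) (h1 : ρ / 2 ≤ R)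
    {n : ℤ} (hn1 : (1 : ℝ) ≤ n) (hn : 999 / 1000 * (n : ℝ) ≤ p * q * (q - p) / (4 * R)) :
    ρ * n ≤ p * q * (q - p) := by
  have hR : 0 < R := by linarith
  rw [le_div_iff₀ (by positivity)] at hn
  nlinarith [mul_le_mul_of_nonneg_right h1 (show (0 : ℝ) ≤ n by linarith)]

/-- the case of sorted points -/
private theorem sorted19b {β ρ t₀ s d R : ℝ} (h : Par β ρ t₀ s d) (h1 : ρ / 2 ≤ R) (h2 : R ≤ 4 * ρ) {c : ℝ × ℝ}
    {m m₁ m₂ : ℤ × ℤ} (hm : m ∈ near β R t₀ s d c) (hm₁ : m₁ ∈ near β R t₀ s d c) (hm₂ : m₂ ∈ near β R t₀ s d c)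
    (hz1 : zt β c m < zt β c m₁) (hz2 : zt β c m₁ < zt β c m₂) (hdd : dd (m₁ - m) (m₂ - m) ≠ 0) :
    Adt β ρ s (m₁ - m) (m₂ - m) := by
  have hρ := h.hρ
  have hR : 0 < R := by linarith
  have hs := h.hs
  obtain ⟨da1, -, -⟩ := near_diff hR hm hm₁
  obtain ⟨db1, db2, -⟩ := near_diff hR hm hm₂
  obtain ⟨de1, -, -⟩ := near_diff hR hm₁ hm₂
  have za0 : 0 < zz β (m₁ - m) := by
    rw [da1]
    linarith
  have ze0 : 0 < zz β (m₂ - m₁) := by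
    rw [de1]
    linarith
  have hsum : zz β (m₂ - m) - zz β (m₁ - m) = zz β (m₂ - m₁) := by
    rw [da1, db1, de1]
    ring
  have zb0 : 0 < zz β (m₂ - m) := by linarith
  have hsub : (m₂ - m) - (m₁ - m) = m₂ - m₁ := sub_sub_sub_cancel_right m₂ m₁ m
  have n1 : m ≠ m₁ := fun e => by
    rw [e] at hz1
    exact lt_irrefl _ hz1
  have n2 : m₁ ≠ m₂ := fun e => by
    rw [e] at hz2
    exact lt_irrefl _ hz2
  have s1 := near_sep h hR hm hm₁ n1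
  have s2 := near_sep h hR hm₁ hm₂ n2
  have e1 := near_eight h hR hm hm₁
  have e2 := near_eight h hR hm₁ hm₂
  rw [abs_of_pos za0] at s1 e1
  rw [abs_of_pos ze0] at s2 e2
  rw [abs_of_pos zb0] at db2
  have ar := near_area' h h1 h2 hm hm₁ hm₂
  have harea : 0 < zz β (m₁ - m) * zz β (m₂ - m) * (zz β (m₂ - m) - zz β (m₁ - m)) / (4 * R) := by
    rw [hsum]
    positivity
  have ar2 := abs_le.1 ar
  have hpos : 0 < dd (m₁ - m) (m₂ - m) := by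
    have k1 : (-1 : ℝ) < (dd (m₁ - m) (m₂ - m) : ℝ) := by linarith [ar2.1]
    have k2 : (-1 : ℤ) < dd (m₁ - m) (m₂ - m) := by exact_mod_cast k1
    omega
  have hone : (1 : ℝ) ≤ (dd (m₁ - m) (m₂ - m) : ℝ) := by exact_mod_cast hpos
  have hn : 999 / 1000 * (dd (m₁ - m) (m₂ - m) : ℝ) ≤
      zz β (m₁ - m) * zz β (m₂ - m) * (zz β (m₂ - m) - zz β (m₁ - m)) / (4 * R) := by
    linarith [ar2.2]
  have hle : zz β (m₂ - m) ≤ 16 * ρ * s := by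
    have := mul_le_mul_of_nonneg_right h2 hs.le
    linarith
  exact
    { za := s1
      zb := by
        rw [hsub]
        exact s2
      le := hle
      sla := e1
      slb := by
        rw [hsub]
        exact e2
      pos := hpos
      ub := areaub19b hρ h1 zb0 hle hn
      lb := arealb19b hρ h1 hone hn }

private theorem zt_ne19b {β ρ t₀ s d R : ℝ} (h : Par β ρ t₀ s d) (hR : 0 < R) {c : ℝ × ℝ} {m m₁ : ℤ × ℤ}
    (hm : m ∈ near β R t₀ s d c) (hm₁ : m₁ ∈ near β R t₀ s d c) (hne : m ≠ m₁) : zt β c m ≠ zt β c m₁ := by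
  intro e
  have s1 := near_sep h hR hm hm₁ hne
  rw [(near_diff hR hm hm₁).1, e, sub_self, abs_zero] at s1
  norm_num at s1

theorem tri_sort {β ρ t₀ s d R : ℝ} (h : Par β ρ t₀ s d) (h1 : ρ / 2 ≤ R) (h2 : R ≤ 4 * ρ) {c : ℝ × ℝ}
    (hT : Tri (near β R t₀ s d c)) : ∃ m a b : ℤ × ℤ, m ∈ near β R t₀ s d c ∧ m + a ∈ near β R t₀ s d c ∧
      m + b ∈ near β R t₀ s d c ∧ Adt β ρ s a b := by
  have hR : 0 < R := by
    have := h.hρ
    linarith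
  have key : ∀ m ∈ near β R t₀ s d c, ∀ m₁ ∈ near β R t₀ s d c, ∀ m₂ ∈ near β R t₀ s d c,
      zt β c m < zt β c m₁ → zt β c m₁ < zt β c m₂ → dd (m₁ - m) (m₂ - m) ≠ 0 →
        ∃ m a b : ℤ × ℤ, m ∈ near β R t₀ s d c ∧ m + a ∈ near β R t₀ s d c ∧
          m + b ∈ near β R t₀ s d c ∧ Adt β ρ s a b := by
    intro m hm m₁ hm₁ m₂ hm₂ hz1 hz2 hdd
    refine ⟨m, m₁ - m, m₂ - m, hm, ?_, ?_, sorted19b h h1 h2 hm hm₁ hm₂ hz1 hz2 hdd⟩
    · rw [add_sub_cancel]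
      exact hm₁
    · rw [add_sub_cancel]
      exact hm₂
  obtain ⟨m, hm, m₁, hm₁, m₂, hm₂, hdd⟩ := hT
  have hd2 : (m₁.1 - m.1) * (m₂.2 - m.2) - (m₁.2 - m.2) * (m₂.1 - m.1) ≠ 0 := by
    simpa only [dd, Prod.fst_sub, Prod.snd_sub] using hdd
  have perm : ∀ x y z : ℤ × ℤ, ((x.1 - z.1) * (y.2 - z.2) - (x.2 - z.2) * (y.1 - z.1) =
      (m₁.1 - m.1) * (m₂.2 - m.2) - (m₁.2 - m.2) * (m₂.1 - m.1) ∨
      (x.1 - z.1) * (y.2 - z.2) - (x.2 - z.2) * (y.1 - z.1) =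
      -((m₁.1 - m.1) * (m₂.2 - m.2) - (m₁.2 - m.2) * (m₂.1 - m.1))) → dd (x - z) (y - z) ≠ 0 := by
    intro x y z hxy h0
    simp only [dd, Prod.fst_sub, Prod.snd_sub] at h0
    rcases hxy with e | e <;> rw [e] at h0
    · exact hd2 h0
    · exact hd2 (neg_eq_zero.1 h0)
  have n01 : m ≠ m₁ := by
    rintro rfl
    apply hdd
    simp [dd]
  have n02 : m ≠ m₂ := by
    rintro rfl
    apply hdd
    simp [dd]
  have n12 : m₁ ≠ m₂ := by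
    rintro rfl
    apply hdd
    simp only [dd]
    ring
  have k01 := zt_ne19b h hR hm hm₁ n01
  have k02 := zt_ne19b h hR hm hm₂ n02
  have k12 := zt_ne19b h hR hm₁ hm₂ n12
  rcases lt_or_gt_of_ne k01 with l01 | l01 <;> rcases lt_or_gt_of_ne k02 with l02 | l02 <;>
    rcases lt_or_gt_of_ne k12 with l12 | l12
  · exact key m hm m₁ hm₁ m₂ hm₂ l01 l12 hdd
  · exact key m hm m₂ hm₂ m₁ hm₁ l02 l12 (perm m₂ m₁ m (Or.inr (by ring)))
  · exact absurd (l01.trans l12) (not_lt.2 l02.le)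
  · exact key m₂ hm₂ m hm m₁ hm₁ l02 l01 (perm m m₁ m₂ (Or.inl (by ring)))
  · exact key m₁ hm₁ m hm m₂ hm₂ l01 l02 (perm m m₂ m₁ (Or.inr (by ring)))
  · exact absurd (l12.trans l01) (not_lt.2 l02.le)
  · exact key m₁ hm₁ m₂ hm₂ m hm l12 l02 (perm m₂ m m₁ (Or.inl (by ring)))
  · exact key m₂ hm₂ m₁ hm₁ m hm l12 l01 (perm m₁ m m₂ (Or.inr (by ring)))

theorem no_tri {β ρ t₀ s d R : ℝ} (h : Par β ρ t₀ s d) (h1 : ρ / 2 ≤ R) (h2 : R ≤ 4 * ρ) (c : ℝ × ℝ)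
    (hs : 520 * ρ ^ 2 * s ^ 3 < 1) : ¬ Tri (near β R t₀ s d c) := by
  intro hT
  obtain ⟨m, a, b, -, -, -, hA⟩ := tri_sort h h1 h2 hT
  have h3 : (1 : ℝ) ≤ (dd a b : ℝ) := by exact_mod_cast hA.pos
  linarith [hA.ub]

end Pool.Agent.Helper19.GS
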