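import Pool.Agent.Helper19.GS.C1
import Pool.Agent.Helper92.GC.N8
import Pool.Agent.Helper92.GC.N10

/-!
# GS counts C2: unfolding the triangles

PROOF (adapt `Helper92/GC/N16.lean`, which does this for quadruples; copy the private lemmas). For `R ∈ [ρ/2, 4ρ]` and `t ∈ T`: by `tri_sort` the set `Tq ∩ {c | Tri (near β R t s d c)}` is contained in the union over
`m` and over the pairs `q = (a, b)` with `Adt β ρ s a b` of `Tq ∩ {c | m, m + a, m + b ∈ near β R t s d c}` (measurable), so its measure is at most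
`∑'_q (if Adt then ∑'_m volume (Tq ∩ {c | ...}) else 0)` (`measure_iUnion_le`, countable), and for each `q` by `unfold_T` (GC.N6; `near_iff`: `m + a ∈ near β R t s d c` iff
`(m.1 - c.1 + a.1, m.2 - c.2 + a.2) ∈ Es β R t s d`) `∑'_m volume (Tq ∩ ...) = volume {ξ | ξ, ξ + a, ξ + b ∈ Es β R t s d}`.
The last set is contained in `{ξ | |(ξ₂ - β ξ₁)/(2R) - t| ≤ s} ∩ {ξ | |Ps ξ| ≤ d, |Ps (ξ + a)| ≤ d, |Ps (ξ + b)| ≤ d}`; the sum over `t ∈ T` of the indicators of the first sets is at most `1 + 2s/σ` (`sep_card`: `T` is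
`σ`-separated and the `t` are in an interval of length `2s`). Integrate over `R` (`lintegral_finset_sum` or a bound for each finite sum, `lintegral_tsum`; the function `R ↦ volume {ξ | three conditions}` is measurable,
see `B3_meas` in N16) and use `pair_vol` (GC.N8, `zz β a > 0`, `zz β b - zz β a = zz β (b - a) > 0`): `≤ (1 + 2s/σ) 2^15 d³ρ³/(z_a z_b (z_b - z_a)) ≤ (1 + 2s/σ) 2^15 d³ρ²/dd a b` by `Adt.lb`.
(The left side is a sum of lower integrals of possibly non measurable functions: bound each of them first, `lintegral_mono`, by the measurable majorant; the sum over `t` is taken inside with the majorants.)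
-/

open MeasureTheory Real Set Filter Topology

set_option autoImplicit false

namespace Pool.Agent.Helper19.GS

open Pool.Agent.Helper22.AE
open Pool.Agent.Helper92.GC
open Pool.Agent.Helper76.GS

/-- all three points near the arc -/
private def E381 (β R t s d : ℝ) (q : (ℤ × ℤ) × (ℤ × ℤ)) : Set (ℝ × ℝ) :=
  {ξ | ξ ∈ Es β R t s d ∧ (ξ.1 + q.1.1, ξ.2 + q.1.2) ∈ Es β R t s d ∧
    (ξ.1 + q.2.1, ξ.2 + q.2.2) ∈ Es β R t s d}

private lemma E3_meas81 (β R t s d : ℝ) (q : (ℤ × ℤ) × (ℤ × ℤ)) : MeasurableSet (E381 β R t s d q) := by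
  have h : ∀ a : ℤ × ℤ, MeasurableSet {ξ : ℝ × ℝ | (ξ.1 + (a.1 : ℝ), ξ.2 + (a.2 : ℝ)) ∈ Es β R t s d} := by
    intro a
    have hf : Measurable (fun ξ : ℝ × ℝ => (ξ.1 + (a.1 : ℝ), ξ.2 + (a.2 : ℝ))) := by fun_prop
    exact hf (Es_meas β R t s d)
  exact (Es_meas β R t s d).inter ((h q.1).inter (h q.2))

private lemma near_add81 (β R t s d : ℝ) (c : ℝ × ℝ) (m a : ℤ × ℤ) : m + a ∈ near β R t s d c ↔
    ((((m.1 : ℝ) - c.1) + (a.1 : ℝ), ((m.2 : ℝ) - c.2) + (a.2 : ℝ)) : ℝ × ℝ) ∈ Es β R t s d := by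
  rw [near_iff]
  have e : (((((m + a).1 : ℤ) : ℝ) - c.1, (((m + a).2 : ℤ) : ℝ) - c.2) : ℝ × ℝ) =
      ((((m.1 : ℝ) - c.1) + (a.1 : ℝ), ((m.2 : ℝ) - c.2) + (a.2 : ℝ)) : ℝ × ℝ) := by
    apply Prod.ext
    · simp only [Prod.fst_add]
      push_cast
      ring
    · simp only [Prod.snd_add]
      push_cast
      ring
  rw [e]

open Classical in
private lemma tri_int81 {β ρ R t s d : ℝ} (h : Par β ρ t s d) (h1 : ρ / 2 ≤ R) (h2 : R ≤ 4 * ρ) :
    volume (Tq ∩ {c | Tri (near β R t s d c)}) ≤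
      ∑' q : (ℤ × ℤ) × (ℤ × ℤ), (if Adt β ρ s q.1 q.2 then volume (E381 β R t s d q) else 0) := by
  have hfm : ∀ m : ℤ × ℤ, Measurable (fun c : ℝ × ℝ => ((m.1 : ℝ) - c.1, (m.2 : ℝ) - c.2)) :=
    fun m => by fun_prop
  have hsub : Tq ∩ {c | Tri (near β R t s d c)} ⊆ ⋃ q : (ℤ × ℤ) × (ℤ × ℤ), ⋃ m : ℤ × ℤ,
      (if Adt β ρ s q.1 q.2 then
        {c : ℝ × ℝ | ((m.1 : ℝ) - c.1, (m.2 : ℝ) - c.2) ∈ E381 β R t s d q} ∩ Tq else ∅) := by
    rintro c ⟨hc, hT⟩
    obtain ⟨m, a, b, hm, ha, hb, hA⟩ := tri_sort h h1 h2 hT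
    refine mem_iUnion.2 ⟨(a, b), mem_iUnion.2 ⟨m, ?_⟩⟩
    rw [if_pos hA]
    exact ⟨⟨(near_iff β R t s d c m).1 hm, (near_add81 β R t s d c m a).1 ha,
      (near_add81 β R t s d c m b).1 hb⟩, hc⟩
  refine (measure_mono hsub).trans ((measure_iUnion_le _).trans (ENNReal.tsum_le_tsum fun q => ?_))
  refine (measure_iUnion_le _).trans ?_
  by_cases hA : Adt β ρ s q.1 q.2
  · simp only [hA, if_true]
    rw [← unfold_T (E3_meas81 β R t s d q), lintegral_tsum]
    · refine ENNReal.tsum_le_tsum fun m => ?_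
      have e : ∀ c : ℝ × ℝ, (E381 β R t s d q).indicator (fun _ => (1 : ENNReal))
          ((m.1 : ℝ) - c.1, (m.2 : ℝ) - c.2) =
          {c : ℝ × ℝ | ((m.1 : ℝ) - c.1, (m.2 : ℝ) - c.2) ∈ E381 β R t s d q}.indicator
            (fun _ => (1 : ENNReal)) c := fun c => rfl
      simp only [e]
      have hms : MeasurableSet {c : ℝ × ℝ | ((m.1 : ℝ) - c.1, (m.2 : ℝ) - c.2) ∈ E381 β R t s d q} :=
        (hfm m) (E3_meas81 β R t s d q)
      rw [lintegral_indicator hms, setLIntegral_one, Measure.restrict_apply hms]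
    · intro m
      exact ((measurable_const.indicator (E3_meas81 β R t s d q)).comp (hfm m)).aemeasurable
  · simp only [hA, if_false, measure_empty, tsum_zero]
    exact le_rfl

/-- the three conditions without slope -/
private def B381 (β R d : ℝ) (u v : ℤ × ℤ) : Set (ℝ × ℝ) :=
  {ξ : ℝ × ℝ | |Ps β R ξ| ≤ d ∧ |Ps β R (ξ.1 + u.1, ξ.2 + u.2)| ≤ d ∧ |Ps β R (ξ.1 + v.1, ξ.2 + v.2)| ≤ d}

private lemma B3_meas81 (β d : ℝ) (u v : ℤ × ℤ) : Measurable (fun R : ℝ => volume (B381 β R d u v)) := by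
  have hS : MeasurableSet {p : ℝ × (ℝ × ℝ) | p.2 ∈ B381 β p.1 d u v} := by
    have h : ∀ x y : ℝ, MeasurableSet {p : ℝ × (ℝ × ℝ) | |Ps β p.1 (p.2.1 + x, p.2.2 + y)| ≤ d} := by
      intro x y
      have hm : Measurable (fun p : ℝ × (ℝ × ℝ) => |Ps β p.1 (p.2.1 + x, p.2.2 + y)|) := by
        unfold Ps
        fun_prop
      exact measurableSet_le hm measurable_const
    have h0 : MeasurableSet {p : ℝ × (ℝ × ℝ) | |Ps β p.1 p.2| ≤ d} := by
      have hm : Measurable (fun p : ℝ × (ℝ × ℝ) => |Ps β p.1 p.2|) := by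
        unfold Ps
        fun_prop
      exact measurableSet_le hm measurable_const
    exact h0.inter ((h u.1 u.2).inter (h v.1 v.2))
  exact measurable_measure_prodMk_left hS

private lemma sum_vol81 {β R s d σ : ℝ} (hs : 0 < s) (T : Finset ℝ) (hσ : 0 < σ)
    (hsep : ∀ t ∈ T, ∀ t' ∈ T, t ≠ t' → σ ≤ |t - t'|) (q : (ℤ × ℤ) × (ℤ × ℤ)) :
    ∑ t ∈ T, volume (E381 β R t s d q) ≤
      ENNReal.ofReal (1 + 2 * s / σ) * volume (B381 β R d q.1 q.2) := by
  classical
  have hA : ∀ t : ℝ, MeasurableSet {ξ : ℝ × ℝ | |(ξ.2 - β * ξ.1) / (2 * R) - t| ≤ s} := by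
    intro t
    have hm : Measurable (fun ξ : ℝ × ℝ => |(ξ.2 - β * ξ.1) / (2 * R) - t|) := by fun_prop
    exact measurableSet_le hm measurable_const
  have hsub : ∀ t : ℝ, E381 β R t s d q ⊆
      {ξ : ℝ × ℝ | |(ξ.2 - β * ξ.1) / (2 * R) - t| ≤ s} ∩ B381 β R d q.1 q.2 := by
    rintro t ξ ⟨h1, h2, h3⟩
    exact ⟨h1.1, h1.2, h2.2, h3.2⟩
  have hstep : ∀ t : ℝ, volume (E381 β R t s d q) ≤
      ∫⁻ ξ in B381 β R d q.1 q.2,
        {ξ : ℝ × ℝ | |(ξ.2 - β * ξ.1) / (2 * R) - t| ≤ s}.indicator (fun _ => (1 : ENNReal)) ξ := by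
    intro t
    rw [lintegral_indicator (hA t), setLIntegral_one, Measure.restrict_apply (hA t)]
    exact measure_mono (hsub t)
  calc ∑ t ∈ T, volume (E381 β R t s d q) ≤ ∑ t ∈ T, ∫⁻ ξ in B381 β R d q.1 q.2,
        {ξ : ℝ × ℝ | |(ξ.2 - β * ξ.1) / (2 * R) - t| ≤ s}.indicator (fun _ => (1 : ENNReal)) ξ :=
        Finset.sum_le_sum fun t _ => hstep t
    _ = ∫⁻ ξ in B381 β R d q.1 q.2, ∑ t ∈ T,
        {ξ : ℝ × ℝ | |(ξ.2 - β * ξ.1) / (2 * R) - t| ≤ s}.indicator (fun _ => (1 : ENNReal)) ξ := by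
        rw [lintegral_finsetSum]
        exact fun t _ => measurable_const.indicator (hA t)
    _ ≤ ∫⁻ _ in B381 β R d q.1 q.2, ENNReal.ofReal (1 + 2 * s / σ) := by
        refine lintegral_mono fun ξ => ?_
        have h1 : ∑ t ∈ T, {ξ : ℝ × ℝ | |(ξ.2 - β * ξ.1) / (2 * R) - t| ≤ s}.indicator
            (fun _ => (1 : ENNReal)) ξ =
            ((T.filter (fun t => |(ξ.2 - β * ξ.1) / (2 * R) - t| ≤ s)).card : ENNReal) := by
          rw [Finset.card_filter]
          push_cast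
          refine Finset.sum_congr rfl fun t _ => ?_
          by_cases h : |(ξ.2 - β * ξ.1) / (2 * R) - t| ≤ s
          · rw [Set.indicator_of_mem (by exact h), if_pos h]
          · rw [Set.indicator_of_notMem (by exact h), if_neg h]
        rw [h1]
        have h2 := sep_card (T.filter (fun t => |(ξ.2 - β * ξ.1) / (2 * R) - t| ≤ s)) (fun t => t)
          (a := (ξ.2 - β * ξ.1) / (2 * R) - s) (L := 2 * s) (δ := σ) (by positivity) hσ
          (fun t ht => by
            have h3 := abs_le.1 (Finset.mem_filter.1 ht).2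
            constructor <;> linarith [h3.1, h3.2])
          (fun t ht t' ht' hne => hsep t (Finset.mem_filter.1 ht).1 t' (Finset.mem_filter.1 ht').1 hne)
        rw [← ENNReal.ofReal_natCast]
        exact ENNReal.ofReal_le_ofReal h2
    _ = ENNReal.ofReal (1 + 2 * s / σ) * volume (B381 β R d q.1 q.2) := by
        rw [setLIntegral_const]

open Classical in
theorem tri_unfold {β ρ s d σ : ℝ} (T : Finset ℝ) (hσ : 0 < σ) (hT : ∀ t ∈ T, Par β ρ t s d)
    (hsep : ∀ t ∈ T, ∀ t' ∈ T, t ≠ t' → σ ≤ |t - t'|) :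
    ∑ t ∈ T, ∫⁻ R in Icc (ρ / 2) (4 * ρ), volume (Tq ∩ {c | Tri (near β R t s d c)}) ≤
      ENNReal.ofReal (1 + 2 * s / σ) * ∑' q : (ℤ × ℤ) × (ℤ × ℤ), (if Adt β ρ s q.1 q.2 then
        ENNReal.ofReal (2 ^ 15 * d ^ 3 * ρ ^ 2 / (dd q.1 q.2 : ℝ)) else 0) := by
  rcases T.eq_empty_or_nonempty with rfl | ⟨t₁, ht₁⟩
  · simp
  have hP₁ := hT t₁ ht₁
  have hρ1 := hP₁.hρ
  have hs := hP₁.hs
  have hd := hP₁.hd
  -- the sum over `t` under the integral
  have hsum : ∀ (S : Finset ℝ) (F : ℝ → ℝ → ENNReal),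
      ∑ t ∈ S, ∫⁻ R in Icc (ρ / 2) (4 * ρ), F t R ≤ ∫⁻ R in Icc (ρ / 2) (4 * ρ), ∑ t ∈ S, F t R := by
    intro S F
    induction S using Finset.induction_on with
    | empty => simp
    | insert t S ht ih =>
      rw [Finset.sum_insert ht]
      refine (add_le_add_right ih _).trans ?_
      refine (le_lintegral_add _ _).trans (lintegral_mono fun R => ?_)
      rw [Finset.sum_insert ht]
  refine (hsum T _).trans ?_
  have hpt : ∀ R ∈ Icc (ρ / 2) (4 * ρ), ∑ t ∈ T, volume (Tq ∩ {c | Tri (near β R t s d c)}) ≤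
      ENNReal.ofReal (1 + 2 * s / σ) * ∑' q : (ℤ × ℤ) × (ℤ × ℤ),
        (if Adt β ρ s q.1 q.2 then volume (B381 β R d q.1 q.2) else 0) := by
    intro R hR
    refine (Finset.sum_le_sum fun t ht => tri_int81 (hT t ht) hR.1 hR.2).trans ?_
    rw [← ENNReal.tsum_mul_left, ← Summable.tsum_finsetSum (fun _ _ => ENNReal.summable)]
    refine ENNReal.tsum_le_tsum fun q => ?_
    by_cases hA : Adt β ρ s q.1 q.2
    · simp only [hA, if_true]
      exact sum_vol81 (R := R) hs T hσ hsep q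
    · simp only [hA, if_false, Finset.sum_const_zero]
      exact bot_le
  refine (setLIntegral_mono' measurableSet_Icc hpt).trans ?_
  have hmq : ∀ q : (ℤ × ℤ) × (ℤ × ℤ), Measurable (fun R : ℝ =>
      (if Adt β ρ s q.1 q.2 then volume (B381 β R d q.1 q.2) else 0)) := by
    intro q
    by_cases hA : Adt β ρ s q.1 q.2
    · simp only [hA, if_true]
      exact B3_meas81 β d q.1 q.2
    · simp only [hA, if_false]
      exact measurable_const
  rw [lintegral_const_mul _ (Measurable.ennreal_tsum hmq), lintegral_tsum (fun q => (hmq q).aemeasurable)]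
  refine mul_le_mul_right (ENNReal.tsum_le_tsum fun q => ?_) _
  by_cases hA : Adt β ρ s q.1 q.2
  · simp only [hA, if_true]
    have hρ0 : 0 < ρ := by linarith
    have z1 : 0 < zz β q.1 := by linarith [hA.za]
    have z2 : zz β q.1 < zz β q.2 := by
      have h1 := hA.zb
      rw [zz_sub19] at h1
      linarith
    have hx := hA.lb
    have h1 := pair_vol (β := β) (ρ := ρ) (d := d) hρ1 hd (u := q.1) (v := q.2) z1 z2
    refine h1.trans (ENNReal.ofReal_le_ofReal ?_)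
    have h3 : (0 : ℝ) < dd q.1 q.2 := by exact_mod_cast hA.pos
    have h4 : 0 < zz β q.1 * zz β q.2 * (zz β q.2 - zz β q.1) :=
      mul_pos (mul_pos z1 (z1.trans z2)) (by linarith)
    rw [div_le_div_iff₀ h4 h3]
    calc 2 ^ 15 * d ^ 3 * ρ ^ 3 * (dd q.1 q.2 : ℝ) =
          2 ^ 15 * d ^ 3 * ρ ^ 2 * (ρ * dd q.1 q.2) := by ring
      _ ≤ _ := mul_le_mul_of_nonneg_left hx (by positivity)
  · simp only [hA, if_false, lintegral_zero]
    exact le_rfl

end Pool.Agent.Helper19.GS
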