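import Pool.Agent.Helper19.GS.Cd
import Pool.Agent.Helper92.GC.N10

/-!
# GS counts C3: the sum over the difference vectors

PROOF. Write `b' = b - a`; `dd a b = dd a b'`. Let `Z = 16 ρ s`. If `F` is empty the claim is trivial (`log ρ ≥ 0`). Otherwise `Z ≥ zz β b ≥ 1/4`. Split `F` into `F₁ = {zz β b' ≤ zz β a}` and `F₂ = {zz β a < zz β b'}`.
(1) `F₁`. The number of possible `a`: `a ≠ 0`, `0 < zz β a ≤ Z`, `|a.1| ≤ 8Z`, `|a.2| ≤ |zz β a| + |a.1|/2 ≤ 5Z`: at most `(16Z + 1)(10Z + 1) ≤ 20Z · 14Z = 280 Z²` vectors (`Z ≥ 1/4`). Fix `a` and let `g = gcd(a.1, a.2) ≥ 1`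
(`a ≠ 0`), `a = g a'`. For every `b` with `(a, b) ∈ F₁` the integer `D = dd a b` is positive, a multiple of `g`, and at most `N = ⌊520 ρ² s³⌋ ≤ 520 ρ²`. For a fixed value `D` two such vectors `b`, `b₁` satisfy
`dd a (b - b₁) = 0`, so `b - b₁ = k a'` with an integer `k`, and `|k| zz β a' = |zz β b - zz β b₁| < zz β a = g zz β a'` because both `zz β b` are in `(zz β a, 2 zz β a]`; so there are at most `g` (or `2g`) vectors `b`
(`b ↦ k` injective into an interval of length `g`; e.g. `sep_card` of GC.N10 with `f b = zz β b`, `δ = zz β a'`, `L = zz β a`: `card ≤ 1 + g ≤ 2g`). So for fixed `a` the sum of `1/D` is at most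
`∑_{D ≤ N, g ∣ D} 2g/D = ∑_{D' ≤ N/g} 2/D' ≤ 2 (1 + log N)` if `N ≥ 1` (`harmonic` sum; `log N ≤ log 520 + 2 log ρ`). Total for `F₁`: `280 Z² · 2 (1 + log 520 + 2 log ρ)`.
(2) `F₂`: the same with the roles of `a` and `b'` exchanged: fix `b'` (`zz β b' ≤ zz β b ≤ Z`, `|b'.1| ≤ 8 zz β b'` by `slb`), `dd a b' = D`, and `zz β a` is in `(0, zz β b')`.
(Both parts follow from one lemma: for a finite set `F'` of pairs `(u, v)` with `0 < zz β u ≤ Z`, `|u.1| ≤ 8 zz β u`, `0 < zz β v ≤ zz β u`, `dd u v ≠ 0`, `|dd u v| ≤ N`: `∑ 1/|dd u v| ≤ C (1 + log N) Z²`.)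
-/

open MeasureTheory Real Set Filter Topology

set_option autoImplicit false

namespace Pool.Agent.Helper19.GS

open Pool.Agent.Helper22.AE
open Pool.Agent.Helper92.GC
open Pool.Agent.Helper76.GS

private theorem prim36 {g b : ℤ × ℤ} (hg : IsCoprime g.1 g.2) (h : g.1 * b.2 = g.2 * b.1) :
    ∃ y : ℤ, b.1 = y * g.1 ∧ b.2 = y * g.2 := by
  obtain ⟨u, v, huv⟩ := hg
  refine ⟨u * b.1 + v * b.2, ?_, ?_⟩
  · linear_combination (-b.1) * huv - v * h
  · linear_combination (-b.2) * huv + u * h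

private theorem fib36 {β : ℝ} {u u' : ℤ × ℤ} {g : ℕ} (hg : 0 < g) (hu1 : u.1 = g * u'.1) (hu2 : u.2 = g * u'.2)
    (hcop : IsCoprime u'.1 u'.2) (hz : 0 < zz β u) (V : Finset (ℤ × ℤ)) (hV : ∀ v ∈ V, 0 < zz β v ∧ zz β v ≤ zz β u) (D : ℤ) :
    ((V.filter fun v => dd u' v = D).card : ℝ) ≤ 2 * g := by
  have hg0 : (0 : ℝ) < g := by exact_mod_cast hg
  have hzu : zz β u = g * zz β u' := by
    unfold zz
    rw [hu1, hu2]
    push_cast
    ring
  have hz' : 0 < zz β u' := by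
    rw [hzu] at hz
    exact pos_of_mul_pos_right hz hg0.le
  have h1 := sep_card (V.filter fun v => dd u' v = D) (fun v => zz β v) (a := 0) (L := zz β u) (δ := zz β u') hz.le hz'
    (by
      intro v hv
      have := hV v (Finset.mem_filter.1 hv).1
      exact ⟨this.1.le, by rw [zero_add]; exact this.2⟩)
    (by
      intro v hv w hw hne
      have e1 := (Finset.mem_filter.1 hv).2
      have e2 := (Finset.mem_filter.1 hw).2
      have e3 : u'.1 * (v - w).2 = u'.2 * (v - w).1 := by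
        unfold dd at e1 e2
        simp only [Prod.fst_sub, Prod.snd_sub]
        linear_combination e1 - e2
      obtain ⟨k, hk1, hk2⟩ := prim36 hcop e3
      have e4 : zz β v - zz β w = k * zz β u' := by
        rw [← zz_sub19]
        unfold zz
        rw [hk1, hk2]
        push_cast
        ring
      have hk0 : k ≠ 0 := by
        rintro rfl
        apply hne
        have a1 : v - w = 0 := Prod.ext (by simpa using hk1) (by simpa using hk2)
        exact sub_eq_zero.1 a1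
      have hk3 : (1 : ℝ) ≤ |(k : ℝ)| := by
        rw [← Int.cast_abs]
        exact_mod_cast Int.one_le_abs hk0
      rw [e4, abs_mul, abs_of_pos hz']
      nlinarith)
  refine h1.trans ?_
  have h2 : zz β u / zz β u' = g := by
    rw [hzu]
    field_simp
  have h3 : (1 : ℝ) ≤ g := by exact_mod_cast hg
  rw [h2]
  linarith

private theorem harm36 (N : ℕ) : ∑ n ∈ Finset.Icc 1 N, 1 / (n : ℝ) ≤ 1 + log N := by
  have h1 := harmonic_le_one_add_log N
  have h2 : ((harmonic N : ℚ) : ℝ) = ∑ n ∈ Finset.Icc 1 N, 1 / (n : ℝ) := by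
    rw [harmonic_eq_sum_Icc]
    push_cast
    exact Finset.sum_congr rfl fun n _ => by rw [one_div]
  rw [← h2]
  exact h1

private theorem row36 {β : ℝ} {u : ℤ × ℤ} (hz : 0 < zz β u) (V : Finset (ℤ × ℤ)) (N : ℕ)
    (hV : ∀ v ∈ V, 0 < zz β v ∧ zz β v ≤ zz β u ∧ dd u v ≠ 0 ∧ |dd u v| ≤ N) :
    ∑ v ∈ V, 1 / |(dd u v : ℝ)| ≤ 4 * (1 + log N) := by
  have hne : u ≠ 0 := by
    rintro rfl
    simp [zz] at hz
  have h0 : 0 < Int.gcd u.1 u.2 := by
    rw [Nat.pos_iff_ne_zero]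
    intro h
    rw [Int.gcd_eq_zero_iff] at h
    exact hne (Prod.ext h.1 h.2)
  obtain ⟨p, q, hpq, hp, hq⟩ := Int.exists_gcd_one h0
  have hcop : IsCoprime p q := Int.isCoprime_iff_gcd_eq_one.2 hpq
  generalize Int.gcd u.1 u.2 = g at h0 hp hq
  have hg1 : (1 : ℝ) ≤ g := by exact_mod_cast h0
  have hg0 : (0 : ℝ) < g := by linarith
  have hdd : ∀ v, dd u v = g * dd (p, q) v := by
    intro v
    unfold dd
    rw [hp, hq]
    ring
  have hmaps : ∀ v ∈ V, (dd (p, q) v).natAbs ∈ Finset.Icc 1 N := by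
    intro v hv
    obtain ⟨_, _, h3, h4⟩ := hV v hv
    rw [hdd] at h3 h4
    have h5 : dd (p, q) v ≠ 0 := fun h => h3 (by rw [h, mul_zero])
    rw [abs_mul] at h4
    have h6 : |(g : ℤ)| = g := abs_of_nonneg (by positivity)
    rw [h6, Int.abs_eq_natAbs] at h4
    have h7 : g * (dd (p, q) v).natAbs ≤ N := by exact_mod_cast h4
    rw [Finset.mem_Icc]
    refine ⟨Int.natAbs_pos.2 h5, ?_⟩
    calc (dd (p, q) v).natAbs = 1 * (dd (p, q) v).natAbs := (one_mul _).symm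
      _ ≤ g * (dd (p, q) v).natAbs := Nat.mul_le_mul_right _ h0
      _ ≤ N := h7
  rw [← Finset.sum_fiberwise_of_maps_to hmaps]
  have hrow : ∀ n ∈ Finset.Icc 1 N, ∑ v ∈ V.filter (fun v => (dd (p, q) v).natAbs = n), 1 / |(dd u v : ℝ)| ≤ 4 * (1 / (n : ℝ)) := by
    intro n hn
    have hn1 : (1 : ℝ) ≤ n := by exact_mod_cast (Finset.mem_Icc.1 hn).1
    have hn0 : (0 : ℝ) < n := by linarith
    have e1 : ∀ v ∈ V.filter (fun v => (dd (p, q) v).natAbs = n), 1 / |(dd u v : ℝ)| = 1 / (g * n) := by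
      intro v hv
      have e2 := (Finset.mem_filter.1 hv).2
      rw [hdd]
      push_cast
      rw [abs_mul, abs_of_pos hg0, ← e2, Nat.cast_natAbs, Int.cast_abs]
    rw [Finset.sum_congr rfl e1, Finset.sum_const, nsmul_eq_mul]
    have hcard : ((V.filter (fun v => (dd (p, q) v).natAbs = n)).card : ℝ) ≤ 4 * g := by
      have hsub : V.filter (fun v => (dd (p, q) v).natAbs = n) ⊆
          V.filter (fun v => dd (p, q) v = (n : ℤ)) ∪ V.filter (fun v => dd (p, q) v = -(n : ℤ)) := by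
        intro v hv
        obtain ⟨h1, h2⟩ := Finset.mem_filter.1 hv
        rw [Finset.mem_union, Finset.mem_filter, Finset.mem_filter]
        rcases Int.natAbs_eq (dd (p, q) v) with h3 | h3
        · left
          exact ⟨h1, by rw [h3, h2]⟩
        · right
          exact ⟨h1, by rw [h3, h2]⟩
      have h1 := (Finset.card_le_card hsub).trans (Finset.card_union_le _ _)
      have h2 : ((V.filter (fun v => (dd (p, q) v).natAbs = n)).card : ℝ) ≤
          (V.filter (fun v => dd (p, q) v = (n : ℤ))).card + (V.filter (fun v => dd (p, q) v = -(n : ℤ))).card := by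
        exact_mod_cast h1
      have h3 := fib36 (β := β) (u := u) (u' := (p, q)) h0 (by rw [hp]; ring) (by rw [hq]; ring) hcop hz V
        (fun v hv => ⟨(hV v hv).1, (hV v hv).2.1⟩) n
      have h4 := fib36 (β := β) (u := u) (u' := (p, q)) h0 (by rw [hp]; ring) (by rw [hq]; ring) hcop hz V
        (fun v hv => ⟨(hV v hv).1, (hV v hv).2.1⟩) (-(n : ℤ))
      linarith
    calc ((V.filter (fun v => (dd (p, q) v).natAbs = n)).card : ℝ) * (1 / (g * n)) ≤ 4 * g * (1 / (g * n)) := by gcongr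
      _ = 4 * (1 / (n : ℝ)) := by field_simp
  calc ∑ n ∈ Finset.Icc 1 N, ∑ v ∈ V.filter (fun v => (dd (p, q) v).natAbs = n), 1 / |(dd u v : ℝ)|
      ≤ ∑ n ∈ Finset.Icc 1 N, 4 * (1 / (n : ℝ)) := Finset.sum_le_sum hrow
    _ = 4 * ∑ n ∈ Finset.Icc 1 N, 1 / (n : ℝ) := by rw [Finset.mul_sum]
    _ ≤ _ := by
        have := harm36 N
        linarith

open Classical in
private theorem core36 {β Z : ℝ} (hβ : |β| ≤ 1 / 2) (hZ : 1 / 4 ≤ Z) (N : ℕ) (hN : 1 ≤ N) (F : Finset ((ℤ × ℤ) × (ℤ × ℤ)))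
    (hF : ∀ q ∈ F, 0 < zz β q.1 ∧ zz β q.1 ≤ Z ∧ |(q.1.1 : ℝ)| ≤ 8 * zz β q.1 ∧ 0 < zz β q.2 ∧ zz β q.2 ≤ zz β q.1 ∧
      dd q.1 q.2 ≠ 0 ∧ |dd q.1 q.2| ≤ N) :
    ∑ q ∈ F, 1 / |(dd q.1 q.2 : ℝ)| ≤ 1120 * (1 + log N) * Z ^ 2 := by
  have hlog : 0 ≤ log N := Real.log_natCast_nonneg N
  set Bx : Finset (ℤ × ℤ) := Finset.Icc (-⌊8 * Z⌋) ⌊8 * Z⌋ ×ˢ Finset.Icc (-⌊5 * Z⌋) ⌊5 * Z⌋ with hBx
  have hmaps : ∀ q ∈ F, q.1 ∈ Bx := by
    intro q hq
    obtain ⟨h1, h2, h3, _⟩ := hF q hq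
    have h4 : |(q.1.1 : ℝ)| ≤ 8 * Z := h3.trans (by linarith)
    have h5 : |(q.1.2 : ℝ)| ≤ 5 * Z := by
      have e : (q.1.2 : ℝ) = zz β q.1 + β * q.1.1 := by
        unfold zz
        ring
      rw [e]
      refine (abs_add_le _ _).trans ?_
      rw [abs_mul, abs_of_pos h1]
      have : |β| * |(q.1.1 : ℝ)| ≤ 1 / 2 * (8 * Z) := by gcongr
      linarith
    obtain ⟨a1, a2⟩ := abs_le.1 h4
    obtain ⟨b1, b2⟩ := abs_le.1 h5
    rw [hBx, Finset.mem_product, Finset.mem_Icc, Finset.mem_Icc]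
    refine ⟨⟨?_, Int.le_floor.2 a2⟩, ⟨?_, Int.le_floor.2 b2⟩⟩
    · have : -q.1.1 ≤ ⌊8 * Z⌋ := Int.le_floor.2 (by push_cast; linarith)
      linarith
    · have : -q.1.2 ≤ ⌊5 * Z⌋ := Int.le_floor.2 (by push_cast; linarith)
      linarith
  have hcard : (Bx.card : ℝ) ≤ 280 * Z ^ 2 := by
    have f1 : 0 ≤ ⌊8 * Z⌋ := Int.floor_nonneg.2 (by linarith)
    have f2 : 0 ≤ ⌊5 * Z⌋ := Int.floor_nonneg.2 (by linarith)
    have e1 : ((Finset.Icc (-⌊8 * Z⌋) ⌊8 * Z⌋).card : ℝ) ≤ 20 * Z := by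
      rw [Int.card_Icc]
      have e2 : (((⌊8 * Z⌋ + 1 - -⌊8 * Z⌋).toNat : ℕ) : ℝ) = 2 * ⌊8 * Z⌋ + 1 := by
        have e3 : (((⌊8 * Z⌋ + 1 - -⌊8 * Z⌋).toNat : ℕ) : ℤ) = 2 * ⌊8 * Z⌋ + 1 := by
          rw [Int.toNat_of_nonneg (by linarith)]
          ring
        exact_mod_cast e3
      rw [e2]
      have := Int.floor_le (8 * Z)
      linarith
    have e1' : ((Finset.Icc (-⌊5 * Z⌋) ⌊5 * Z⌋).card : ℝ) ≤ 14 * Z := by
      rw [Int.card_Icc]
      have e2 : (((⌊5 * Z⌋ + 1 - -⌊5 * Z⌋).toNat : ℕ) : ℝ) = 2 * ⌊5 * Z⌋ + 1 := by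
        have e3 : (((⌊5 * Z⌋ + 1 - -⌊5 * Z⌋).toNat : ℕ) : ℤ) = 2 * ⌊5 * Z⌋ + 1 := by
          rw [Int.toNat_of_nonneg (by linarith)]
          ring
        exact_mod_cast e3
      rw [e2]
      have := Int.floor_le (5 * Z)
      linarith
    rw [hBx, Finset.card_product]
    push_cast
    calc ((Finset.Icc (-⌊8 * Z⌋) ⌊8 * Z⌋).card : ℝ) * ((Finset.Icc (-⌊5 * Z⌋) ⌊5 * Z⌋).card : ℝ) ≤ 20 * Z * (14 * Z) := by
          gcongr
      _ = 280 * Z ^ 2 := by ring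
  rw [← Finset.sum_fiberwise_of_maps_to hmaps]
  have hrow : ∀ u ∈ Bx, ∑ q ∈ F.filter (fun q => q.1 = u), 1 / |(dd q.1 q.2 : ℝ)| ≤ 4 * (1 + log N) := by
    intro u _
    rcases Finset.eq_empty_or_nonempty (F.filter (fun q => q.1 = u)) with he | ⟨q₀, hq₀⟩
    · rw [he, Finset.sum_empty]
      positivity
    · have hu : 0 < zz β u := by
        have := Finset.mem_filter.1 hq₀
        rw [← this.2]
        exact (hF q₀ this.1).1
      have h1 := row36 hu ((F.filter (fun q => q.1 = u)).image Prod.snd) N (by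
        intro v hv
        obtain ⟨q, hq, rfl⟩ := Finset.mem_image.1 hv
        obtain ⟨hq1, hq2⟩ := Finset.mem_filter.1 hq
        obtain ⟨_, _, _, h4, h5, h6, h7⟩ := hF q hq1
        rw [hq2] at h5 h6 h7
        exact ⟨h4, h5, h6, h7⟩)
      rw [Finset.sum_image (by
        intro q hq q' hq' hqq
        have a1 := (Finset.mem_filter.1 (Finset.mem_coe.1 hq)).2
        have a2 := (Finset.mem_filter.1 (Finset.mem_coe.1 hq')).2
        exact Prod.ext (a1.trans a2.symm) hqq)] at h1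
      refine le_trans (le_of_eq (Finset.sum_congr rfl fun q hq => ?_)) h1
      rw [(Finset.mem_filter.1 hq).2]
  calc ∑ u ∈ Bx, ∑ q ∈ F.filter (fun q => q.1 = u), 1 / |(dd q.1 q.2 : ℝ)| ≤ ∑ _u ∈ Bx, 4 * (1 + log N) := Finset.sum_le_sum hrow
    _ = Bx.card * (4 * (1 + log N)) := by rw [Finset.sum_const, nsmul_eq_mul]
    _ ≤ 280 * Z ^ 2 * (4 * (1 + log N)) := by gcongr
    _ = _ := by ring

theorem adt_sum : ∃ C : ℝ, 0 < C ∧ ∀ β ρ s : ℝ, |β| ≤ 1 / 2 → 1 ≤ ρ → 0 < s → s ≤ 1 → ∀ F : Finset ((ℤ × ℤ) × (ℤ × ℤ)),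
    (∀ q ∈ F, Adt β ρ s q.1 q.2) → ∑ q ∈ F, 1 / (dd q.1 q.2 : ℝ) ≤ C * (1 + log ρ) * (ρ * s) ^ 2 := by
  classical
  refine ⟨4587520, by norm_num, ?_⟩
  intro β ρ s hβ hρ hs hs1 F hF
  have hlogρ : 0 ≤ log ρ := Real.log_nonneg hρ
  have hρ0 : 0 < ρ := by linarith
  rcases F.eq_empty_or_nonempty with he | ⟨q₀, hq₀⟩
  · rw [he, Finset.sum_empty]
    positivity
  set Z : ℝ := 16 * ρ * s with hZdef
  have hZ : 1 / 4 ≤ Z := by
    have h := hF q₀ hq₀
    have h1 := zz_sub19 β q₀.2 q₀.1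
    linarith [h.za, h.zb, h.le]
  set N : ℕ := ⌊520 * ρ ^ 2 * s ^ 3⌋₊ with hNdef
  have hN : 1 ≤ N := by
    have h := hF q₀ hq₀
    apply Nat.le_floor
    have h1 : (1 : ℝ) ≤ (dd q₀.1 q₀.2 : ℝ) := by exact_mod_cast h.pos
    push_cast
    exact h1.trans h.ub
  have hNle : (N : ℝ) ≤ 520 * ρ ^ 2 := by
    have h1 : (N : ℝ) ≤ 520 * ρ ^ 2 * s ^ 3 := Nat.floor_le (by positivity)
    have h2 : s ^ 3 ≤ 1 := pow_le_one₀ hs.le hs1
    have h3 : 520 * ρ ^ 2 * s ^ 3 ≤ 520 * ρ ^ 2 * 1 := by gcongr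
    linarith
  have hlogN : 1 + log N ≤ 8 * (1 + log ρ) := by
    have hN0 : (0 : ℝ) < N := by exact_mod_cast hN
    have h1 : log N ≤ log (520 * ρ ^ 2) := Real.log_le_log hN0 hNle
    rw [Real.log_mul (by norm_num) (by positivity), Real.log_pow] at h1
    have h2 : log (520 : ℝ) ≤ 7 := by
      rw [Real.log_le_iff_le_exp (by norm_num)]
      have h3 : (2.7 : ℝ) ≤ Real.exp 1 := by
        have := Real.exp_one_gt_d9
        linarith
      have h4 : Real.exp 7 = Real.exp 1 ^ 7 := by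
        rw [← Real.exp_nat_mul]
        norm_num
      rw [h4]
      have h5 : (2.7 : ℝ) ^ 7 ≤ Real.exp 1 ^ 7 := by gcongr
      have h6 : (520 : ℝ) ≤ 2.7 ^ 7 := by norm_num
      linarith
    push_cast at h1
    linarith
  have hub : ∀ q ∈ F, |dd q.1 q.2| ≤ N := by
    intro q hq
    have h := hF q hq
    rw [abs_of_pos h.pos]
    have h1 : ((dd q.1 q.2).toNat : ℝ) ≤ 520 * ρ ^ 2 * s ^ 3 := by
      have h2 : ((dd q.1 q.2).toNat : ℤ) = dd q.1 q.2 := Int.toNat_of_nonneg h.pos.le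
      have h3 : ((dd q.1 q.2).toNat : ℝ) = (dd q.1 q.2 : ℝ) := by exact_mod_cast h2
      rw [h3]
      exact h.ub
    have h4 : (dd q.1 q.2).toNat ≤ N := Nat.le_floor h1
    have h2 : ((dd q.1 q.2).toNat : ℤ) = dd q.1 q.2 := Int.toNat_of_nonneg h.pos.le
    rw [← h2]
    exact_mod_cast h4
  have hdd1 : ∀ a b : ℤ × ℤ, dd a (b - a) = dd a b := by
    intro a b
    unfold dd
    simp only [Prod.fst_sub, Prod.snd_sub]
    ring
  have hdd2 : ∀ a b : ℤ × ℤ, dd (b - a) a = -dd a b := by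
    intro a b
    unfold dd
    simp only [Prod.fst_sub, Prod.snd_sub]
    ring
  have hsplit := Finset.sum_filter_add_sum_filter_not F (fun q => zz β (q.2 - q.1) ≤ zz β q.1) (fun q => 1 / (dd q.1 q.2 : ℝ))
  have hS1 : ∑ q ∈ F.filter (fun q => zz β (q.2 - q.1) ≤ zz β q.1), 1 / (dd q.1 q.2 : ℝ) ≤ 1120 * (1 + log N) * Z ^ 2 := by
    have h1 := core36 hβ hZ N hN ((F.filter (fun q => zz β (q.2 - q.1) ≤ zz β q.1)).image fun q => (q.1, q.2 - q.1)) (by
      intro x hx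
      obtain ⟨q, hq, rfl⟩ := Finset.mem_image.1 hx
      obtain ⟨hq1, hq2⟩ := Finset.mem_filter.1 hq
      have h := hF q hq1
      have e1 := zz_sub19 β q.2 q.1
      refine ⟨by linarith [h.za], by linarith [h.za, h.zb, h.le], h.sla, by linarith [h.zb], hq2, ?_, ?_⟩
      · simp only
        rw [hdd1]
        exact h.pos.ne'
      · simp only
        rw [hdd1]
        exact hub q hq1)
    rw [Finset.sum_image (by
      intro q _ q' _ hqq
      simp only [Prod.mk.injEq] at hqq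
      have a1 := hqq.1
      have a2 := hqq.2
      rw [a1] at a2
      exact Prod.ext a1 (sub_left_injective a2))] at h1
    refine le_trans (le_of_eq (Finset.sum_congr rfl fun q hq => ?_)) h1
    have h := hF q (Finset.mem_filter.1 hq).1
    simp only
    rw [hdd1, abs_of_pos (by exact_mod_cast h.pos)]
  have hS2 : ∑ q ∈ F.filter (fun q => ¬ zz β (q.2 - q.1) ≤ zz β q.1), 1 / (dd q.1 q.2 : ℝ) ≤ 1120 * (1 + log N) * Z ^ 2 := by
    have h1 := core36 hβ hZ N hN ((F.filter (fun q => ¬ zz β (q.2 - q.1) ≤ zz β q.1)).image fun q => (q.2 - q.1, q.1)) (by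
      intro x hx
      obtain ⟨q, hq, rfl⟩ := Finset.mem_image.1 hx
      obtain ⟨hq1, hq2⟩ := Finset.mem_filter.1 hq
      rw [not_le] at hq2
      have h := hF q hq1
      have e1 := zz_sub19 β q.2 q.1
      refine ⟨by linarith [h.zb], by linarith [h.za, h.zb, h.le], h.slb, by linarith [h.za], hq2.le, ?_, ?_⟩
      · simp only
        rw [hdd2]
        exact neg_ne_zero.2 h.pos.ne'
      · simp only
        rw [hdd2, abs_neg]
        exact hub q hq1)
    rw [Finset.sum_image (by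
      intro q _ q' _ hqq
      simp only [Prod.mk.injEq] at hqq
      have a1 := hqq.2
      have a2 := hqq.1
      rw [a1] at a2
      exact Prod.ext a1 (sub_left_injective a2))] at h1
    refine le_trans (le_of_eq (Finset.sum_congr rfl fun q hq => ?_)) h1
    have h := hF q (Finset.mem_filter.1 hq).1
    simp only
    rw [hdd2]
    push_cast
    rw [abs_neg, abs_of_pos (by exact_mod_cast h.pos)]
  have hZ2 : 0 ≤ Z ^ 2 := sq_nonneg Z
  calc ∑ q ∈ F, 1 / (dd q.1 q.2 : ℝ) ≤ 2 * (1120 * (1 + log N) * Z ^ 2) := by linarith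
    _ = 2240 * Z ^ 2 * (1 + log N) := by ring
    _ ≤ 2240 * Z ^ 2 * (8 * (1 + log ρ)) := by gcongr
    _ = 4587520 * (1 + log ρ) * (ρ * s) ^ 2 := by
        rw [hZdef]
        ring

end Pool.Agent.Helper19.GS
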