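import Pool.Agent.Helper19.GS.C2
import Pool.Agent.Helper19.GS.C3

/-!
# GS counts C4: the total number of triangles (helper19 proves this file)
-/

open MeasureTheory Real Set Filter Topology

set_option autoImplicit false

namespace Pool.Agent.Helper19.GS

open Pool.Agent.Helper22.AE
open Pool.Agent.Helper92.GC
open Pool.Agent.Helper76.GS

theorem tri_total : ∃ C : ℝ, 0 < C ∧ ∀ (β ρ s d σ : ℝ) (T : Finset ℝ), 0 < σ → (∀ t ∈ T, Par β ρ t s d) →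
    (∀ t ∈ T, ∀ t' ∈ T, t ≠ t' → σ ≤ |t - t'|) →
      ∑ t ∈ T, ∫⁻ R in Icc (ρ / 2) (4 * ρ), volume (Tq ∩ {c | Tri (near β R t s d c)}) ≤
        ENNReal.ofReal (C * (1 + s / σ) * (1 + log ρ) * (d ^ 3 * ρ ^ 4 * s ^ 2)) := by
  classical
  obtain ⟨C, hC, hsum⟩ := adt_sum
  refine ⟨2 ^ 16 * C, by positivity, ?_⟩
  intro β ρ s d σ T hσ hT hsep
  rcases T.eq_empty_or_nonempty with rfl | ⟨t₀, ht₀⟩
  · rw [Finset.sum_empty]
    exact bot_le
  have hP := hT t₀ ht₀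
  have hρ := hP.hρ
  have hρ0 : 0 < ρ := by linarith
  have hs := hP.hs
  have hd := hP.hd
  have hs1 : s ≤ 1 := hP.hs1.trans (by norm_num)
  have hlog : 0 ≤ log ρ := Real.log_nonneg hρ
  refine (tri_unfold T hσ hT hsep).trans ?_
  have hK : 0 ≤ 2 ^ 15 * d ^ 3 * ρ ^ 2 := by positivity
  have hbound : ∑' q : (ℤ × ℤ) × (ℤ × ℤ), (if Adt β ρ s q.1 q.2 then
      ENNReal.ofReal (2 ^ 15 * d ^ 3 * ρ ^ 2 / (dd q.1 q.2 : ℝ)) else 0) ≤
      ENNReal.ofReal (2 ^ 15 * d ^ 3 * ρ ^ 2 * (C * (1 + log ρ) * (ρ * s) ^ 2)) := by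
    rw [ENNReal.tsum_eq_iSup_sum]
    refine iSup_le fun F => ?_
    rw [← Finset.sum_filter]
    have hF : ∀ q ∈ F.filter (fun q => Adt β ρ s q.1 q.2), Adt β ρ s q.1 q.2 :=
      fun q hq => (Finset.mem_filter.1 hq).2
    have hpos : ∀ q ∈ F.filter (fun q => Adt β ρ s q.1 q.2), 0 ≤ 2 ^ 15 * d ^ 3 * ρ ^ 2 / (dd q.1 q.2 : ℝ) := by
      intro q hq
      have h1 : (0 : ℝ) < (dd q.1 q.2 : ℝ) := by exact_mod_cast (hF q hq).pos
      exact div_nonneg hK h1.le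
    rw [← ENNReal.ofReal_sum_of_nonneg hpos]
    apply ENNReal.ofReal_le_ofReal
    have e : ∀ q ∈ F.filter (fun q => Adt β ρ s q.1 q.2), 2 ^ 15 * d ^ 3 * ρ ^ 2 / (dd q.1 q.2 : ℝ) =
        2 ^ 15 * d ^ 3 * ρ ^ 2 * (1 / (dd q.1 q.2 : ℝ)) := fun q _ => by ring
    rw [Finset.sum_congr rfl e, ← Finset.mul_sum]
    exact mul_le_mul_of_nonneg_left (hsum β ρ s hP.hβ hρ hs hs1 _ hF) hK
  refine (mul_le_mul_right hbound _).trans ?_
  rw [← ENNReal.ofReal_mul (by positivity)]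
  apply ENNReal.ofReal_le_ofReal
  have h2 : 1 + 2 * s / σ ≤ 2 * (1 + s / σ) := by
    have : 2 * s / σ = 2 * (s / σ) := by ring
    rw [this]
    linarith
  calc (1 + 2 * s / σ) * (2 ^ 15 * d ^ 3 * ρ ^ 2 * (C * (1 + log ρ) * (ρ * s) ^ 2))
      ≤ 2 * (1 + s / σ) * (2 ^ 15 * d ^ 3 * ρ ^ 2 * (C * (1 + log ρ) * (ρ * s) ^ 2)) :=
        mul_le_mul_of_nonneg_right h2 (by positivity)
    _ = 2 ^ 16 * C * (1 + s / σ) * (1 + log ρ) * (d ^ 3 * ρ ^ 4 * s ^ 2) := by ring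

theorem near_any {β ρ t₀ s d : ℝ} (h : Par β ρ t₀ s d) :
    ∫⁻ R in Icc (ρ / 2) (4 * ρ), volume (Tq ∩ {c | (near β R t₀ s d c).Nonempty}) ≤ ENNReal.ofReal (64 * ρ ^ 2 * s * d) := by
  have hρ : 0 < ρ := lt_of_lt_of_le one_pos h.hρ
  refine le_trans (setLIntegral_mono' measurableSet_Icc fun R hR => ?_) (near_int h)
  have hR0 : 0 < R := by linarith [hR.1]
  have hTq : MeasurableSet Tq := measurableSet_Icc.prod measurableSet_Icc
  have hm : Measurable (fun c : ℝ × ℝ => ((near β R t₀ s d c).ncard : ENNReal)) := by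
    simp only [near_tsum hR0 t₀ s d]
    refine Measurable.tsum fun m => ?_
    have hf : Measurable (fun c : ℝ × ℝ => ((m.1 : ℝ) - c.1, (m.2 : ℝ) - c.2)) := by fun_prop
    exact (measurable_const.indicator (Es_meas β R t₀ s d)).comp hf
  have h1 : ∀ c ∈ {c : ℝ × ℝ | (near β R t₀ s d c).Nonempty}, (1 : ENNReal) ≤ ((near β R t₀ s d c).ncard : ENNReal) := by
    intro c hc
    have h2 : 0 < (near β R t₀ s d c).ncard := (Set.ncard_pos (near_fin hR0 t₀ s d c)).2 hc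
    exact_mod_cast h2
  have h3 := meas_le_lintegral₀ (μ := volume.restrict Tq) hm.aemeasurable h1
  rwa [Measure.restrict_apply' hTq, inter_comm] at h3

private theorem mem_meas19 (β t₀ s d : ℝ) (m : ℤ × ℤ) :
    MeasurableSet {q : (ℝ × ℝ) × ℝ | m ∈ near β q.2 t₀ s d q.1} := by
  have h1 : Measurable (fun q : (ℝ × ℝ) × ℝ => |Del β q.2 t₀ q.1 m|) := by
    unfold Del zt
    fun_prop
  have h2 : Measurable (fun q : (ℝ × ℝ) × ℝ => |Psi β q.2 q.1 m|) := by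
    unfold Psi zt
    fun_prop
  exact (measurableSet_le h1 measurable_const).inter (measurableSet_le h2 measurable_const)

theorem tri_meas (β t₀ s d : ℝ) : MeasurableSet {q : (ℝ × ℝ) × ℝ | Tri (near β q.2 t₀ s d q.1)} := by
  have e : {q : (ℝ × ℝ) × ℝ | Tri (near β q.2 t₀ s d q.1)} =
      ⋃ m : ℤ × ℤ, ⋃ m₁ : ℤ × ℤ, ⋃ m₂ : ℤ × ℤ, ⋃ _ : dd (m₁ - m) (m₂ - m) ≠ 0,
        ({q : (ℝ × ℝ) × ℝ | m ∈ near β q.2 t₀ s d q.1} ∩ ({q : (ℝ × ℝ) × ℝ | m₁ ∈ near β q.2 t₀ s d q.1} ∩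
          {q : (ℝ × ℝ) × ℝ | m₂ ∈ near β q.2 t₀ s d q.1})) := by
    ext q
    simp only [Tri, mem_setOf_eq, mem_iUnion, mem_inter_iff, exists_prop]
    constructor
    · rintro ⟨m, hm, m₁, hm₁, m₂, hm₂, hd⟩
      exact ⟨m, m₁, m₂, hd, hm, hm₁, hm₂⟩
    · rintro ⟨m, m₁, m₂, hd, hm, hm₁, hm₂⟩
      exact ⟨m, hm, m₁, hm₁, m₂, hm₂, hd⟩
  rw [e]
  exact MeasurableSet.iUnion fun m => MeasurableSet.iUnion fun m₁ => MeasurableSet.iUnion fun m₂ =>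
    MeasurableSet.iUnion fun _ => (mem_meas19 β t₀ s d m).inter ((mem_meas19 β t₀ s d m₁).inter (mem_meas19 β t₀ s d m₂))

private theorem zt_shift19 (β : ℝ) (c : ℝ × ℝ) (n m : ℤ × ℤ) :
    zt β (c.1 + n.1, c.2 + n.2) (m + n) = zt β c m := by
  simp only [zt, Prod.fst_add, Prod.snd_add, Int.cast_add]
  ring

theorem near_shift (β R t₀ s d : ℝ) (c : ℝ × ℝ) (n m : ℤ × ℤ) :
    m + n ∈ near β R t₀ s d (c.1 + n.1, c.2 + n.2) ↔ m ∈ near β R t₀ s d c := by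
  have e2 : Psi β R (c.1 + n.1, c.2 + n.2) (m + n) = Psi β R c m := by
    simp only [Psi]
    rw [zt_shift19]
    simp only [Prod.fst_add, Int.cast_add]
    ring
  simp only [near, mem_setOf_eq, Del]
  rw [e2, zt_shift19]

theorem tri_per (β R t₀ s d : ℝ) (c : ℝ × ℝ) (n : ℤ × ℤ) :
    Tri (near β R t₀ s d (c.1 + n.1, c.2 + n.2)) ↔ Tri (near β R t₀ s d c) := by
  have hb : ∀ m : ℤ × ℤ, m ∈ near β R t₀ s d (c.1 + n.1, c.2 + n.2) → m - n ∈ near β R t₀ s d c := by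
    intro m hm
    rw [← near_shift β R t₀ s d c n (m - n), sub_add_cancel]
    exact hm
  constructor
  · rintro ⟨m, hm, m₁, hm₁, m₂, hm₂, hd⟩
    refine ⟨m - n, hb m hm, m₁ - n, hb m₁ hm₁, m₂ - n, hb m₂ hm₂, ?_⟩
    rw [sub_sub_sub_cancel_right, sub_sub_sub_cancel_right]
    exact hd
  · rintro ⟨m, hm, m₁, hm₁, m₂, hm₂, hd⟩
    refine ⟨m + n, (near_shift β R t₀ s d c n m).2 hm, m₁ + n, (near_shift β R t₀ s d c n m₁).2 hm₁,
      m₂ + n, (near_shift β R t₀ s d c n m₂).2 hm₂, ?_⟩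
    rw [add_sub_add_right_eq_sub, add_sub_add_right_eq_sub]
    exact hd

theorem ncard_per (β R t₀ s d : ℝ) (c : ℝ × ℝ) (n : ℤ × ℤ) :
    (near β R t₀ s d (c.1 + n.1, c.2 + n.2)).ncard = (near β R t₀ s d c).ncard := by
  have e : near β R t₀ s d (c.1 + n.1, c.2 + n.2) = (fun m => m + n) '' near β R t₀ s d c := by
    ext m
    constructor
    · intro hm
      refine ⟨m - n, ?_, sub_add_cancel m n⟩
      rw [← near_shift β R t₀ s d c n (m - n), sub_add_cancel]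
      exact hm
    · rintro ⟨m', hm', rfl⟩
      exact (near_shift β R t₀ s d c n m').2 hm'
  rw [e, Set.ncard_image_of_injective _ (add_left_injective n)]

end Pool.Agent.Helper19.GS
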