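import Pool.Agent.Helper19.GS.Cd
import Pool.Agent.Helper92.GC.N5
import Pool.Agent.Helper92.GC.N7

/-!
# GS counts C5: collinear clusters near one arc

PROOF. Let `3 ≤ ncard near` and not `Tri near`. Take three distinct points `m, m₁, m₂` of `near` (`near_fin`, GC.W5); `dd (m₁ - m) (m₂ - m) = 0` (not `Tri`), so by `col_dir` (GC.N2) there is `g` with `IsDir β ρ t₀ s d g`,
`dd (m₁ - m) g = 0`. So (a) `light_zero`: if no `g` is `IsDir` then the integrand of `L6` is `0` for every `R ∈ [ρ/2, 4ρ]` and `c`. (b) `light_one`: let `g` be `IsDir`; by `dir_unique` it is the `g` above.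
For every `m' ∈ near`: `dd (m₁ - m) (m' - m) = 0` and `dd (m₁ - m) g = 0`, `m₁ ≠ m`, so `dd (m' - m) g = 0` (both are parallel to `m₁ - m`): so `near = {m' ∈ near | dd (m' - m) g = 0}`, and by `line_count` (GC.N3)
`ncard^6 ≤ C (dρ)³/z⁶ ((1 + |th β R c g m|/d)³)⁻¹`, and the last factor is the term `n = dd m g` of the series `∑' n : ℤ, ((1 + |R tg² - (n - (c.1 g.2 - c.2 g.1))/z|/d)³)⁻¹` (definition of `th`). Integrate with `line_int`
(GC.N7): `∫⁻ c in Tq` of the series (in `ENNReal.ofReal`, termwise: the integrand of `L6` is at most `ofReal (C (dρ)³/z⁶) * ∑' n, ofReal (...)`, `ENNReal.le_tsum`) `= ofReal (z d)`, and `∫ dR ≤ 4ρ`: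
`L6 ≤ ofReal (C (dρ)³/z⁶ · z d · 4ρ) = ofReal (4 C (dρ)⁴/z⁵)`. (Compare `mom36`, `stepA36` in Helper92/GC/N18.lean.)
-/

open MeasureTheory Real Set Filter Topology

set_option autoImplicit false

namespace Pool.Agent.Helper19.GS

open Pool.Agent.Helper22.AE
open Pool.Agent.Helper92.GC
open Pool.Agent.Helper76.GS

/-- three points, all collinear: one direction -/
private theorem pt53 {β ρ t₀ s d R : ℝ} {c : ℝ × ℝ} (h : Par β ρ t₀ s d) (h1 : ρ / 2 ≤ R) (h2 : R ≤ 4 * ρ)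
    (h3 : 3 ≤ (near β R t₀ s d c).ncard) (hT : ¬ Tri (near β R t₀ s d c)) :
    ∃ g m, IsDir β ρ t₀ s d g ∧ near β R t₀ s d c = {m' ∈ near β R t₀ s d c | dd (m' - m) g = 0} := by
  have hR : 0 < R := by
    have := h.hρ
    linarith
  obtain ⟨m, m₁, m₂, hm, hm₁, hm₂, h01, h02, h12⟩ :=
    (Set.two_lt_ncard_iff (near_fin (β := β) hR t₀ s d c)).1 (by omega)
  have hcol : ∀ m₂ ∈ near β R t₀ s d c, dd (m₁ - m) (m₂ - m) = 0 := by
    intro m₂ hm₂
    by_contra hne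
    exact hT ⟨m, hm, m₁, hm₁, m₂, hm₂, hne⟩
  obtain ⟨g, hg, hg1, -⟩ := col_dir h h1 h2 hm hm₁ hm₂ h01 h02 h12 (hcol m₂ hm₂)
  refine ⟨g, m, hg, ?_⟩
  ext m'
  constructor
  · intro hm'
    refine ⟨hm', ?_⟩
    have e1 := hcol m' hm'
    have hab : m₁ - m ≠ 0 := fun e => h01 (sub_eq_zero.1 e).symm
    generalize m₁ - m = a at *
    generalize m' - m = b at *
    unfold dd at e1 hg1 ⊢
    have k1 : a.1 * (b.1 * g.2 - b.2 * g.1) = 0 := by linear_combination b.1 * hg1 - g.1 * e1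
    have k2 : a.2 * (b.1 * g.2 - b.2 * g.1) = 0 := by linear_combination b.2 * hg1 - g.2 * e1
    rcases mul_eq_zero.1 k1 with k3 | k3
    · rcases mul_eq_zero.1 k2 with k4 | k4
      · exact absurd (Prod.ext k3 k4) hab
      · exact k4
    · exact k3
  · intro hm'
    exact hm'.1

theorem light_zero {β ρ t₀ s d : ℝ} (h : Par β ρ t₀ s d) (hno : ∀ g, ¬ IsDir β ρ t₀ s d g) : L6 β ρ t₀ s d = 0 := by
  unfold L6
  refine setLIntegral_eq_zero measurableSet_Icc ?_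
  intro R hR
  refine lintegral_eq_zero_of_ae_eq_zero (Filter.Eventually.of_forall fun c => ?_)
  have hn : ¬ (3 ≤ (near β R t₀ s d c).ncard ∧ ¬ Tri (near β R t₀ s d c)) := by
    rintro ⟨h3, hT⟩
    obtain ⟨g, m, hg, -⟩ := pt53 h hR.1 hR.2 h3 hT
    exact hno g hg
  simp only [hn, if_false, Pi.zero_apply]

theorem light_one : ∃ C : ℝ, 0 < C ∧ ∀ (β ρ t₀ s d : ℝ) (g : ℤ × ℤ), Par β ρ t₀ s d → IsDir β ρ t₀ s d g →
    L6 β ρ t₀ s d ≤ ENNReal.ofReal (C * (d * ρ) ^ 4 / zz β g ^ 5) := by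
  classical
  obtain ⟨C, hC, hline⟩ := line_count
  refine ⟨4 * C, by positivity, ?_⟩
  intro β ρ t₀ s d g h hg
  have hρ : 0 < ρ := lt_of_lt_of_le one_pos h.hρ
  have hd := h.hd
  have hz := hg.pos
  have hg0 : g ≠ 0 := by
    rintro rfl
    have := hg.pos
    simp [zz] at this
  have hP : 0 ≤ C * (d * ρ) ^ 3 / zz β g ^ 6 := by positivity
  have hpt : ∀ R ∈ Icc (ρ / 2) (4 * ρ), ∀ c : ℝ × ℝ,
      (if 3 ≤ (near β R t₀ s d c).ncard ∧ ¬ Tri (near β R t₀ s d c) then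
        ((near β R t₀ s d c).ncard : ENNReal) ^ 6 else 0) ≤
      ENNReal.ofReal (C * (d * ρ) ^ 3 / zz β g ^ 6) * ∑' n : ℤ,
        ENNReal.ofReal ((1 + |R * tg β g ^ 2 - ((n : ℝ) - (c.1 * g.2 - c.2 * g.1)) / zz β g| / d) ^ 3)⁻¹ := by
    intro R hR c
    split_ifs with hif
    · obtain ⟨h3, hT⟩ := hif
      obtain ⟨g', m, hg', hE⟩ := pt53 h hR.1 hR.2 h3 hT
      have e : g' = g := dir_unique h hg' hg
      subst e
      have h3' := h3
      rw [hE] at h3'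
      obtain ⟨-, -, k3⟩ := hline β ρ t₀ s d R h hR.1 hR.2 c g' m hg'.cop hg'.pos h3'
      rw [← hE] at k3
      unfold th at k3
      have h5 : ((near β R t₀ s d c).ncard : ENNReal) ^ 6 = ENNReal.ofReal (((near β R t₀ s d c).ncard : ℝ) ^ 6) := by
        rw [ENNReal.ofReal_pow (by positivity), ENNReal.ofReal_natCast]
      rw [h5]
      refine (ENNReal.ofReal_le_ofReal k3).trans ?_
      rw [ENNReal.ofReal_mul hP]
      gcongr
      exact ENNReal.le_tsum (f := fun n : ℤ =>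
        ENNReal.ofReal ((1 + |R * tg β g' ^ 2 - ((n : ℝ) - (c.1 * g'.2 - c.2 * g'.1)) / zz β g'| / d) ^ 3)⁻¹) (dd m g')
    · exact zero_le
  have hin : ∀ R ∈ Icc (ρ / 2) (4 * ρ), ∫⁻ c in Tq, (if 3 ≤ (near β R t₀ s d c).ncard ∧ ¬ Tri (near β R t₀ s d c) then
        ((near β R t₀ s d c).ncard : ENNReal) ^ 6 else 0) ≤
      ENNReal.ofReal (C * (d * ρ) ^ 3 / zz β g ^ 6 * (zz β g * d)) := by
    intro R hR
    calc _ ≤ ∫⁻ c in Tq, ENNReal.ofReal (C * (d * ρ) ^ 3 / zz β g ^ 6) * ∑' n : ℤ,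
        ENNReal.ofReal ((1 + |R * tg β g ^ 2 - ((n : ℝ) - (c.1 * g.2 - c.2 * g.1)) / zz β g| / d) ^ 3)⁻¹ :=
          lintegral_mono fun c => hpt R hR c
      _ = _ := by
          rw [lintegral_const_mul' _ _ ENNReal.ofReal_ne_top, line_int hg0 hz hd, ← ENNReal.ofReal_mul hP]
  unfold L6
  calc _ ≤ ∫⁻ _ in Icc (ρ / 2) (4 * ρ), ENNReal.ofReal (C * (d * ρ) ^ 3 / zz β g ^ 6 * (zz β g * d)) :=
        setLIntegral_mono' measurableSet_Icc hin
    _ ≤ _ := by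
        have hQ : 0 ≤ C * (d * ρ) ^ 3 / zz β g ^ 6 * (zz β g * d) := by positivity
        rw [setLIntegral_const, Real.volume_Icc, ← ENNReal.ofReal_mul hQ]
        apply ENNReal.ofReal_le_ofReal
        calc C * (d * ρ) ^ 3 / zz β g ^ 6 * (zz β g * d) * (4 * ρ - ρ / 2)
            ≤ C * (d * ρ) ^ 3 / zz β g ^ 6 * (zz β g * d) * (4 * ρ) := by
              apply mul_le_mul_of_nonneg_left _ hQ
              linarith
          _ = 4 * C * (d * ρ) ^ 4 / zz β g ^ 5 := by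
              field_simp

end Pool.Agent.Helper19.GS
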