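import Pool.Agent.Helper92.GC.N10
import Pool.Agent.Helper19.GS.C5

/-!
# GS counts C6: all collinear clusters

PROOF (see the end of Helper92/GC/N18.lean, `cuberoot36` and `dirs36` there are private: copy them). `T` empty is trivial. Let `T'` be the set of the `t ∈ T` for which some `g_t` is `IsDir β ρ t s d` (choice); the other
terms are `0` (`light_zero`, `0^(1/3) = 0`). For `t ∈ T'`: `L6^(1/3) ≤ (ofReal (C (dρ)⁴/z⁵))^(1/3) ≤ ofReal (C^(1/3) (dρ)^(4/3) z^(-5/3))`, `z = zz β g_t`. Then `dirs36`: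
`∑_{t ∈ T'} 2 (dρ)^(4/3) zz β (g_t)^(-5/3) ≤ C (1 + s/σ) (dρ)^(3/2)`: `∑_t = ∑_g #{t : g_t = g} zz β g^(-5/3)`; `|tg β g - t| ≤ s + 2d/z ≤ s + 2σ` (`d/σ ≤ z`), so by `sep_card` `#{t : g_t = g} ≤ 5 + 2s/σ`; `dir_sum` with
`Z₀ = √(48 d ρ)`.
-/

open MeasureTheory Real Set Filter Topology

set_option autoImplicit false

namespace Pool.Agent.Helper19.GS

open Pool.Agent.Helper22.AE
open Pool.Agent.Helper92.GC
open Pool.Agent.Helper76.GS

private theorem cuberoot19 {K x z : ℝ} (hK : 0 < K) (hx : 0 ≤ x) (hz : 0 < z) :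
    ENNReal.ofReal (K * x ^ 4 / z ^ 5) ^ (1 / 3 : ℝ) ≤ ENNReal.ofReal ((1 + K) * (2 * x ^ (4 / 3 : ℝ) * z ^ (-(5 / 3) : ℝ))) := by
  rw [ENNReal.ofReal_rpow_of_nonneg (by positivity) (by norm_num)]
  apply ENNReal.ofReal_le_ofReal
  have e : K * x ^ 4 / z ^ 5 = K * x ^ 4 * (z ^ 5)⁻¹ := by rw [div_eq_mul_inv]
  rw [e, Real.mul_rpow (by positivity) (by positivity), Real.mul_rpow hK.le (by positivity)]
  have e1 : (x ^ 4) ^ (1 / 3 : ℝ) = x ^ (4 / 3 : ℝ) := by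
    rw [← Real.rpow_natCast x 4, ← Real.rpow_mul hx]
    norm_num
  have e2 : ((z ^ 5)⁻¹) ^ (1 / 3 : ℝ) = z ^ (-(5 / 3) : ℝ) := by
    rw [← Real.rpow_natCast z 5, ← Real.rpow_neg hz.le, ← Real.rpow_mul hz.le]
    norm_num
  rw [e1, e2]
  have e3 : K ^ (1 / 3 : ℝ) ≤ 1 + K := by
    calc K ^ (1 / 3 : ℝ) ≤ (1 + K) ^ (1 / 3 : ℝ) :=
          Real.rpow_le_rpow hK.le (by linarith) (by norm_num)
      _ ≤ (1 + K) ^ (1 : ℝ) := Real.rpow_le_rpow_of_exponent_le (by linarith) (by norm_num)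
      _ = 1 + K := Real.rpow_one _
  have h1 : 0 ≤ x ^ (4 / 3 : ℝ) * z ^ (-(5 / 3) : ℝ) := by positivity
  calc K ^ (1 / 3 : ℝ) * x ^ (4 / 3 : ℝ) * z ^ (-(5 / 3) : ℝ) = K ^ (1 / 3 : ℝ) * (x ^ (4 / 3 : ℝ) * z ^ (-(5 / 3) : ℝ)) := by ring
    _ ≤ (1 + K) * (x ^ (4 / 3 : ℝ) * z ^ (-(5 / 3) : ℝ)) := by gcongr
    _ ≤ (1 + K) * (2 * x ^ (4 / 3 : ℝ) * z ^ (-(5 / 3) : ℝ)) := by nlinarith

open Classical in
/-- the sum over the directions -/
private theorem dirs19 : ∃ C : ℝ, 0 < C ∧ ∀ (β ρ s d σ : ℝ) (T : Finset ℝ) (gt : ℝ → ℤ × ℤ), 0 < σ → σ ≤ s →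
    0 < d → 0 < ρ → (∀ t ∈ T, Par β ρ t s d) → (∀ t ∈ T, ∀ t' ∈ T, t ≠ t' → σ ≤ |t - t'|) →
    (∀ t ∈ T, IsDir β ρ t s d (gt t) ∧ d / σ ≤ zz β (gt t)) →
      ∑ t ∈ T, 2 * (d * ρ) ^ (4 / 3 : ℝ) * zz β (gt t) ^ (-(5 / 3) : ℝ) ≤ C * (1 + s / σ) * (d * ρ) ^ (3 / 2 : ℝ) := by
  obtain ⟨C, hC, hds⟩ := dir_sum
  refine ⟨20 * C, by positivity, ?_⟩
  intro β ρ s d σ T gt hσ hσs hd0 hρ0 hP hsep hg
  rcases T.eq_empty_or_nonempty with hT | ⟨t₁, ht₁⟩
  · subst hT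
    simp only [Finset.sum_empty]
    have hs : 0 < s := lt_of_lt_of_le hσ hσs
    positivity
  have h := hP t₁ ht₁
  have hρ : 0 < ρ := lt_of_lt_of_le one_pos h.hρ
  have hs := h.hs
  have hd := h.hd
  set w : ℤ × ℤ → ℝ := fun g => zz β g ^ (-(5 / 3) : ℝ) with hw
  have h1 : ∑ t ∈ T, w (gt t) = ∑ g ∈ T.image gt, ((T.filter (fun t => gt t = g)).card : ℝ) * w g := by
    rw [Finset.sum_comp w gt]
    simp [nsmul_eq_mul]
  have hfib : ∀ g ∈ T.image gt, ((T.filter (fun t => gt t = g)).card : ℝ) ≤ 5 * (1 + s / σ) := by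
    intro g hgi
    have h2 := sep_card (T.filter (fun t => gt t = g)) (fun t => t) (a := tg β g - (s + 2 * σ)) (L := 2 * (s + 2 * σ)) (δ := σ)
      (by positivity) hσ (by
        intro t ht
        rw [Finset.mem_filter] at ht
        obtain ⟨htT, rfl⟩ := ht
        obtain ⟨h3, h4⟩ := hg t htT
        have h5 := h3.close
        have h6 : 2 * d / zz β (gt t) ≤ 2 * σ := by
          rw [div_le_iff₀ h3.pos]
          rw [div_le_iff₀ hσ] at h4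
          linarith
        have h7 := abs_le.1 (h5.trans (add_le_add_right h6 s))
        constructor <;> linarith [h7.1, h7.2]) (by
        intro t ht t' ht' hne
        rw [Finset.mem_filter] at ht ht'
        exact hsep t ht.1 t' ht'.1 hne)
    refine h2.trans ?_
    have : 2 * (s + 2 * σ) / σ = 2 * (s / σ) + 4 := by
      field_simp
      ring
    rw [this]
    have : 0 ≤ s / σ := by positivity
    linarith
  have hw0 : ∀ g ∈ T.image gt, 0 ≤ w g := by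
    intro g hgi
    obtain ⟨t, ht, rfl⟩ := Finset.mem_image.1 hgi
    exact Real.rpow_nonneg (hg t ht).1.pos.le _
  have hsum : ∑ g ∈ T.image gt, w g ≤ C * √(48 * d * ρ) ^ (1 / 3 : ℝ) := by
    apply hds β (√(48 * d * ρ)) (T.image gt) h.hβ (by positivity)
    intro g hgi
    obtain ⟨t, ht, rfl⟩ := Finset.mem_image.1 hgi
    have h3 := (hg t ht).1
    have hPt := hP t ht
    refine ⟨h3.pos, h3.le, ?_⟩
    generalize gt t = g at h3
    have hz := h3.pos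
    have hc := h3.close
    have ht6 := hPt.ht
    have hs1 := hPt.hs1
    have hd1 := hPt.hd1
    have hβ := hPt.hβ
    have hg1 : |(g.1 : ℝ)| ≤ (6 + s) * zz β g + 2 * d := by
      have e1 : (g.1 : ℝ) = -(tg β g * zz β g) := by
        unfold tg
        field_simp
      have e2 : |tg β g| ≤ 6 + (s + 2 * d / zz β g) := by
        have : |tg β g| ≤ |tg β g - t| + |t| := by
          have := abs_add_le (tg β g - t) t
          simpa using this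
        linarith
      rw [e1, abs_neg, abs_mul, abs_of_pos hz]
      calc |tg β g| * zz β g ≤ (6 + (s + 2 * d / zz β g)) * zz β g := by gcongr
        _ = _ := by field_simp; ring
    have hz8 : 1 / 8 ≤ zz β g := by
      by_contra hcon
      push Not at hcon
      have h4 : |(g.1 : ℝ)| < 1 := by nlinarith
      have h5 : g.1 = 0 := by
        have : |g.1| < 1 := by exact_mod_cast h4
        exact Int.abs_lt_one_iff.1 this
      have h6 : zz β g = g.2 := by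
        unfold zz
        rw [h5]
        simp
      rw [h6] at hz hcon
      have h7 : (0 : ℤ) < g.2 := by exact_mod_cast hz
      have h8 : (1 : ℝ) ≤ g.2 := by exact_mod_cast h7
      linarith
    nlinarith
  have h48 : √(48 * d * ρ) ^ (1 / 3 : ℝ) ≤ 2 * (d * ρ) ^ (1 / 6 : ℝ) := by
    rw [Real.sqrt_eq_rpow, ← Real.rpow_mul (by positivity), show 48 * d * ρ = 48 * (d * ρ) by ring,
      Real.mul_rpow (by norm_num) (by positivity)]
    have e6 : (1 / 2 : ℝ) * (1 / 3) = 1 / 6 := by norm_num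
    rw [e6]
    have e3 : (48 : ℝ) ^ (1 / 6 : ℝ) ≤ 2 := by
      have : (48 : ℝ) ^ (1 / 6 : ℝ) ≤ 64 ^ (1 / 6 : ℝ) := by
        apply Real.rpow_le_rpow (by norm_num) (by norm_num) (by norm_num)
      have e8 : (64 : ℝ) ^ (1 / 6 : ℝ) = 2 := by
        rw [show (64 : ℝ) = 2 ^ (6 : ℝ) by norm_num, ← Real.rpow_mul (by norm_num)]
        norm_num
      rwa [e8] at this
    gcongr
  have hmain : ∑ t ∈ T, w (gt t) ≤ 5 * (1 + s / σ) * (C * (2 * (d * ρ) ^ (1 / 6 : ℝ))) := by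
    rw [h1]
    calc ∑ g ∈ T.image gt, ((T.filter (fun t => gt t = g)).card : ℝ) * w g
        ≤ ∑ g ∈ T.image gt, 5 * (1 + s / σ) * w g :=
          Finset.sum_le_sum fun g hgi => mul_le_mul_of_nonneg_right (hfib g hgi) (hw0 g hgi)
      _ = 5 * (1 + s / σ) * ∑ g ∈ T.image gt, w g := by rw [Finset.mul_sum]
      _ ≤ _ := by
          gcongr
          refine hsum.trans ?_
          gcongr
  have hexp : (d * ρ) ^ (4 / 3 : ℝ) * (d * ρ) ^ (1 / 6 : ℝ) = (d * ρ) ^ (3 / 2 : ℝ) := by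
    rw [← Real.rpow_add (by positivity)]
    norm_num
  rw [← Finset.mul_sum]
  calc 2 * (d * ρ) ^ (4 / 3 : ℝ) * ∑ t ∈ T, w (gt t)
      ≤ 2 * (d * ρ) ^ (4 / 3 : ℝ) * (5 * (1 + s / σ) * (C * (2 * (d * ρ) ^ (1 / 6 : ℝ)))) := by gcongr
    _ = 20 * C * (1 + s / σ) * ((d * ρ) ^ (4 / 3 : ℝ) * (d * ρ) ^ (1 / 6 : ℝ)) := by ring
    _ = _ := by rw [hexp]

theorem light_total : ∃ C : ℝ, 0 < C ∧ ∀ (β ρ s d σ : ℝ) (T : Finset ℝ), 0 < σ → σ ≤ s → 0 < ρ → 0 < d →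
    (∀ t ∈ T, Par β ρ t s d) → (∀ t ∈ T, ∀ t' ∈ T, t ≠ t' → σ ≤ |t - t'|) →
    (∀ t ∈ T, ∀ g, IsDir β ρ t s d g → d / σ ≤ zz β g) →
      ∑ t ∈ T, L6 β ρ t s d ^ (1 / 3 : ℝ) ≤ ENNReal.ofReal (C * (1 + s / σ) * (d * ρ) ^ (3 / 2 : ℝ)) := by
  obtain ⟨K, hK, hone⟩ := light_one
  obtain ⟨C, hC, hdirs⟩ := dirs19
  refine ⟨(1 + K) * C, by positivity, ?_⟩
  intro β ρ s d σ T hσ hσs hρ hd hP hsep hdir
  classical
  let gt : ℝ → ℤ × ℤ := fun t => if h : ∃ g, IsDir β ρ t s d g then h.choose else 0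
  have hgt : ∀ t ∈ T.filter (fun t => ∃ g, IsDir β ρ t s d g), IsDir β ρ t s d (gt t) ∧ d / σ ≤ zz β (gt t) := by
    intro t ht
    rw [Finset.mem_filter] at ht
    have e : gt t = ht.2.choose := by
      simp only [gt, ht.2, dite_true]
    have h2 : IsDir β ρ t s d (gt t) := by
      rw [e]
      exact ht.2.choose_spec
    exact ⟨h2, hdir t ht.1 _ h2⟩
  have hterm : ∀ t ∈ T, L6 β ρ t s d ^ (1 / 3 : ℝ) ≤ (if ∃ g, IsDir β ρ t s d g then
      ENNReal.ofReal ((1 + K) * (2 * (d * ρ) ^ (4 / 3 : ℝ) * zz β (gt t) ^ (-(5 / 3) : ℝ))) else 0) := by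
    intro t ht
    by_cases hex : ∃ g, IsDir β ρ t s d g
    · obtain ⟨h2, -⟩ := hgt t (Finset.mem_filter.2 ⟨ht, hex⟩)
      rw [if_pos hex]
      calc L6 β ρ t s d ^ (1 / 3 : ℝ) ≤ ENNReal.ofReal (K * (d * ρ) ^ 4 / zz β (gt t) ^ 5) ^ (1 / 3 : ℝ) :=
            ENNReal.rpow_le_rpow (hone β ρ t s d _ (hP t ht) h2) (by norm_num)
        _ ≤ _ := cuberoot19 hK (by positivity) h2.pos
    · rw [if_neg hex]
      push Not at hex
      rw [light_zero (hP t ht) hex, ENNReal.zero_rpow_of_pos (by norm_num)]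
  have hsub : ∑ t ∈ T.filter (fun t => ∃ g, IsDir β ρ t s d g),
      2 * (d * ρ) ^ (4 / 3 : ℝ) * zz β (gt t) ^ (-(5 / 3) : ℝ) ≤ C * (1 + s / σ) * (d * ρ) ^ (3 / 2 : ℝ) :=
    hdirs β ρ s d σ (T.filter (fun t => ∃ g, IsDir β ρ t s d g)) gt hσ hσs hd hρ
      (fun t ht => hP t (Finset.mem_filter.1 ht).1)
      (fun t ht t' ht' => hsep t (Finset.mem_filter.1 ht).1 t' (Finset.mem_filter.1 ht').1) hgt
  refine (Finset.sum_le_sum hterm).trans ?_
  rw [← Finset.sum_filter, ← ENNReal.ofReal_sum_of_nonneg]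
  · apply ENNReal.ofReal_le_ofReal
    rw [← Finset.mul_sum]
    calc (1 + K) * ∑ t ∈ T.filter (fun t => ∃ g, IsDir β ρ t s d g),
          2 * (d * ρ) ^ (4 / 3 : ℝ) * zz β (gt t) ^ (-(5 / 3) : ℝ)
        ≤ (1 + K) * (C * (1 + s / σ) * (d * ρ) ^ (3 / 2 : ℝ)) := by gcongr
      _ = (1 + K) * C * (1 + s / σ) * (d * ρ) ^ (3 / 2 : ℝ) := by ring
  · intro t ht
    have := (hgt t ht).1.pos
    positivity

end Pool.Agent.Helper19.GS
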