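import Pool.Agent.Helper19.GS.C4
import Pool.Agent.Helper19.GS.C6

/-!
# GS counts C7: the forms used by the telescoping part
-/

open MeasureTheory Real Set Filter Topology

set_option autoImplicit false

namespace Pool.Agent.Helper19.GS

open Pool.Agent.Helper22.AE
open Pool.Agent.Helper92.GC
open Pool.Agent.Helper76.GS

open Classical in
/-- the measure of the pairs `(R, c)` with a triangle near the arc -/
noncomputable def J3 (β ρ t s d : ℝ) : ENNReal :=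
  ∫⁻ R in Icc (ρ / 2) (4 * ρ), ∫⁻ c in Tq, if Tri (near β R t s d c) then 1 else 0

open Classical in
/-- the sixth moment over the pairs `(R, c)` with a collinear cluster -/
noncomputable def J6 (β ρ t s d : ℝ) : ENNReal :=
  ∫⁻ R in Icc (ρ / 2) (4 * ρ), ∫⁻ c in Tq, if 3 ≤ (near β R t s d c).ncard ∧ ¬ Tri (near β R t s d c) then
    ((near β R t s d c).ncard : ENNReal) ^ 6 else 0

theorem J3_le (β ρ t s d : ℝ) : J3 β ρ t s d ≤
    ∫⁻ R in Icc (ρ / 2) (4 * ρ), volume (Tq ∩ {c | Tri (near β R t s d c)}) := by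
  classical
  unfold J3
  refine lintegral_mono fun R => ?_
  have hTq : MeasurableSet Tq := measurableSet_Icc.prod measurableSet_Icc
  have e : (fun c : ℝ × ℝ => if Tri (near β R t s d c) then (1 : ENNReal) else 0) =
      {c | Tri (near β R t s d c)}.indicator 1 := by
    ext c
    by_cases hc : Tri (near β R t s d c)
    · rw [Set.indicator_of_mem (show c ∈ {c | Tri (near β R t s d c)} from hc), if_pos hc]
      rfl
    · rw [Set.indicator_of_notMem (show c ∉ {c | Tri (near β R t s d c)} from hc), if_neg hc]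
  rw [e]
  refine (lintegral_indicator_one_le _).trans ?_
  rw [Measure.restrict_apply' hTq, inter_comm]

theorem tri_totalJ : ∃ C : ℝ, 0 < C ∧ ∀ (β ρ s d σ : ℝ) (T : Finset ℝ), 0 < σ → (∀ t ∈ T, Par β ρ t s d) →
    (∀ t ∈ T, ∀ t' ∈ T, t ≠ t' → σ ≤ |t - t'|) →
      ∑ t ∈ T, J3 β ρ t s d ≤ ENNReal.ofReal (C * (1 + s / σ) * (1 + log ρ) * d ^ 3 * ρ ^ 4 * s ^ 2) := by
  obtain ⟨C, hC, h⟩ := tri_total
  refine ⟨C, hC, fun β ρ s d σ T h1 h2 h3 => ?_⟩
  have e : C * (1 + s / σ) * (1 + log ρ) * d ^ 3 * ρ ^ 4 * s ^ 2 =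
      C * (1 + s / σ) * (1 + log ρ) * (d ^ 3 * ρ ^ 4 * s ^ 2) := by ring
  rw [e]
  exact (Finset.sum_le_sum fun t _ => J3_le β ρ t s d).trans (h β ρ s d σ T h1 h2 h3)

theorem light_totalJ : ∃ C : ℝ, 0 < C ∧ ∀ (β ρ s d σ : ℝ) (T : Finset ℝ), 0 < σ → σ ≤ s → 64 * d * ρ * σ < 1 →
    (∀ t ∈ T, Par β ρ t s d) → (∀ t ∈ T, ∀ t' ∈ T, t ≠ t' → σ ≤ |t - t'|) → (T.card : ℝ) * σ ≤ 13 →
    (∀ t ∈ T, ∀ g, IsDir β ρ t s d g → d / σ ≤ zz β g) →
      ∑ t ∈ T, J6 β ρ t s d ^ (1 / 3 : ℝ) ≤ ENNReal.ofReal (C * (1 + s / σ) * (1 + log ρ) * (d * ρ) ^ (3 / 2 : ℝ)) := by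
  obtain ⟨C, hC, h⟩ := light_total
  refine ⟨C, hC, fun β ρ s d σ T h1 h2 _ h3 h4 _ h5 => ?_⟩
  rcases T.eq_empty_or_nonempty with rfl | ⟨t₀, ht₀⟩
  · rw [Finset.sum_empty]
    exact bot_le
  have hP := h3 t₀ ht₀
  have hρ := hP.hρ
  have hd := hP.hd
  have hρ0 : 0 < ρ := by linarith
  refine (h β ρ s d σ T h1 h2 hρ0 hd h3 h4 h5).trans (ENNReal.ofReal_le_ofReal ?_)
  have hlog : 0 ≤ log ρ := Real.log_nonneg hρ
  have hs := hP.hs
  have h6 : 0 ≤ C * (1 + s / σ) * (d * ρ) ^ (3 / 2 : ℝ) := by positivity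
  nlinarith [mul_nonneg h6 hlog]

theorem tri_measS (β t s d : ℝ) : MeasurableSet {q : (ℝ × ℝ) × ℝ | 0 < q.2 ∧ Tri (near β q.2 t s d q.1)} :=
  (measurableSet_lt measurable_const measurable_snd).inter (tri_meas β t s d)

open Classical in
theorem tri_measF (β t s d : ℝ) :
    Measurable (fun q : (ℝ × ℝ) × ℝ => if 0 < q.2 ∧ Tri (near β q.2 t s d q.1) then (1 : ENNReal) else 0) :=
  Measurable.ite (tri_measS β t s d) measurable_const measurable_const

open Classical in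
theorem light_meas (β t s d : ℝ) :
    Measurable (fun q : (ℝ × ℝ) × ℝ => if 0 < q.2 ∧ 3 ≤ (near β q.2 t s d q.1).ncard ∧
      ¬ Tri (near β q.2 t s d q.1) then ((near β q.2 t s d q.1).ncard : ENNReal) ^ 6 else 0) := by
  have h1 := near_meas β t s d
  have h2 : MeasurableSet {q : (ℝ × ℝ) × ℝ | 0 < q.2 ∧ 3 ≤ (near β q.2 t s d q.1).ncard ∧
      ¬ Tri (near β q.2 t s d q.1)} := by
    have e : {q : (ℝ × ℝ) × ℝ | 0 < q.2 ∧ 3 ≤ (near β q.2 t s d q.1).ncard ∧ ¬ Tri (near β q.2 t s d q.1)} =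
        (fun q : (ℝ × ℝ) × ℝ => if 0 < q.2 then ((near β q.2 t s d q.1).ncard : ENNReal) else 0) ⁻¹' Ici 3 ∩
          {q : (ℝ × ℝ) × ℝ | Tri (near β q.2 t s d q.1)}ᶜ := by
      ext q
      constructor
      · rintro ⟨a1, a2, a3⟩
        refine ⟨?_, a3⟩
        change (3 : ENNReal) ≤ (if 0 < q.2 then ((near β q.2 t s d q.1).ncard : ENNReal) else 0)
        rw [if_pos a1]
        exact_mod_cast a2
      · rintro ⟨a1, a3⟩
        change (3 : ENNReal) ≤ (if 0 < q.2 then ((near β q.2 t s d q.1).ncard : ENNReal) else 0) at a1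
        by_cases h0 : 0 < q.2
        · rw [if_pos h0] at a1
          exact ⟨h0, by exact_mod_cast a1, a3⟩
        · rw [if_neg h0] at a1
          norm_num at a1
    rw [e]
    exact (h1 measurableSet_Ici).inter (tri_meas β t s d).compl
  have h3 : (fun q : (ℝ × ℝ) × ℝ => if 0 < q.2 ∧ 3 ≤ (near β q.2 t s d q.1).ncard ∧
      ¬ Tri (near β q.2 t s d q.1) then ((near β q.2 t s d q.1).ncard : ENNReal) ^ 6 else 0) =
      (fun q : (ℝ × ℝ) × ℝ => if 0 < q.2 ∧ 3 ≤ (near β q.2 t s d q.1).ncard ∧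
        ¬ Tri (near β q.2 t s d q.1) then
          (if 0 < q.2 then ((near β q.2 t s d q.1).ncard : ENNReal) else 0) ^ 6 else 0) := by
    ext q
    by_cases hq : 0 < q.2 ∧ 3 ≤ (near β q.2 t s d q.1).ncard ∧ ¬ Tri (near β q.2 t s d q.1)
    · rw [if_pos hq, if_pos hq, if_pos hq.1]
    · rw [if_neg hq, if_neg hq]
  rw [h3]
  exact Measurable.ite h2 (h1.pow_const 6) measurable_const

end Pool.Agent.Helper19.GS
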