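import Pool.Agent.Helper92.GC.N9
import Pool.Agent.Helper76.GS.Defs

/-!
# Project GS, counts: definitions
-/

open MeasureTheory Real Set Filter Topology

set_option autoImplicit false

namespace Pool.Agent.Helper19.GS

open Pool.Agent.Helper22.AE
open Pool.Agent.Helper92.GC
open Pool.Agent.Helper76.GS

/-- the necessary conditions for the difference vectors `a`, `b` of a sorted triangle `m`, `m + a`, `m + b` -/
structure Adt (β ρ s : ℝ) (a b : ℤ × ℤ) : Prop where
  za : 1 / 8 ≤ zz β a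
  zb : 1 / 8 ≤ zz β (b - a)
  le : zz β b ≤ 16 * ρ * s
  sla : |(a.1 : ℝ)| ≤ 8 * zz β a
  slb : |(((b - a).1 : ℤ) : ℝ)| ≤ 8 * zz β (b - a)
  pos : 0 < dd a b
  ub : (dd a b : ℝ) ≤ 520 * ρ ^ 2 * s ^ 3
  lb : ρ * dd a b ≤ zz β a * zz β b * (zz β b - zz β a)

open Classical in
/-- the sixth moment of the number of points near the arc, where there are at least three and all are collinear -/
noncomputable def L6 (β ρ t₀ s d : ℝ) : ENNReal :=
  ∫⁻ R in Icc (ρ / 2) (4 * ρ), ∫⁻ c in Tq, (if 3 ≤ (near β R t₀ s d c).ncard ∧ ¬ Tri (near β R t₀ s d c) then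
    ((near β R t₀ s d c).ncard : ENNReal) ^ 6 else 0)

theorem zz_add19 (β : ℝ) (a b : ℤ × ℤ) : zz β (a + b) = zz β a + zz β b := by
  simp only [zz, Prod.fst_add, Prod.snd_add, Int.cast_add]
  ring

theorem zz_sub19 (β : ℝ) (a b : ℤ × ℤ) : zz β (a - b) = zz β a - zz β b := by
  simp only [zz, Prod.fst_sub, Prod.snd_sub, Int.cast_sub]
  ring

end Pool.Agent.Helper19.GS
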